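import Pool.Agent.Helper92.TN.GoalsW
import Pool.Agent.Helper57.TN.EASYS

/-!
# Project TN (MP_a41896_nt), packet HARDS: the hard steps of the tower
-/

set_option autoImplicit false

namespace Pool.Agent.Helper92.TN.HARDS

open MvPolynomial WeierstrassCurve
open Pool.Agent.Helper29.BL Pool.Agent.Helper92.Ru Pool.Agent.Helper42.SG
open Pool.Agent.Helper60.T3 (WL IP zd)
open Pool.Agent.Helper92.TN
open Pool.Agent.Helper57.TN.EASYS (sub_acl acl_le exch hyp)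

section closure

variable {K Ω : Type} [Field K] [Field Ω] [Algebra K Ω]

theorem conv' {k : IntermediateField K Ω} {T : Set Ω} {z : Ω}
    (h : IsAlgebraic (IntermediateField.adjoin K ((k : Set Ω) ∪ T)) z) :
    IsAlgebraic (IntermediateField.adjoin k T) z := by
  rw [← IntermediateField.restrictScalars_adjoin K k T] at h
  exact h

/-- a minimal generating subset -/
theorem minset (hA : ACLA) {σ : Type} [Fintype σ] [DecidableEq σ] (V : Set Ω) (z : σ → Ω) :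
    ∃ B : Finset σ, (∀ i, z i ∈ acl K (V ∪ z '' (B : Set σ))) ∧
      ∀ b ∈ B, z b ∉ acl K (V ∪ z '' ((B.erase b : Finset σ) : Set σ)) := by
  classical
  have h1 : ∃ m : ℕ, ∃ B : Finset σ, B.card = m ∧ ∀ i, z i ∈ acl K (V ∪ z '' (B : Set σ)) :=
    ⟨_, Finset.univ, rfl, fun i => sub_acl hA _ (Or.inr ⟨i, by simp, rfl⟩)⟩
  obtain ⟨B, hBc, hB⟩ := Nat.find_spec h1
  refine ⟨B, hB, fun b hb hbad => ?_⟩
  have h2 : (B.erase b).card < Nat.find h1 := by
    rw [← hBc]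
    exact Finset.card_erase_lt_of_mem hb
  refine Nat.find_min h1 h2 ⟨B.erase b, rfl, fun i => ?_⟩
  refine acl_le hA ?_ (hB i)
  rintro y (hy | ⟨c, hc, rfl⟩)
  · exact sub_acl hA _ (Or.inl hy)
  · rcases eq_or_ne c b with h | h
    · subst h
      exact hbad
    · exact sub_acl hA _ (Or.inr ⟨c, by simpa [h] using hc, rfl⟩)

/-- adjoining elements which are independent over a larger field does not change the closure -/
theorem notmem_of (hA : ACLA) {υ : Type} [DecidableEq υ] (A M : Set Ω) (t : Ω) (y : υ → Ω)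
    (hAM : A ⊆ (acl K M : Set Ω)) (htM : t ∈ acl K M) (ht : t ∉ acl K A)
    (hy : ∀ u, y u ∉ acl K (M ∪ y '' {w | w ≠ u})) (s : Finset υ) :
    t ∉ acl K (A ∪ y '' (s : Set υ)) := by
  induction s using Finset.induction_on with
  | empty => simpa using ht
  | insert u s hu ih =>
    intro hbad
    have h1 : A ∪ y '' ((insert u s : Finset υ) : Set υ) = insert (y u) (A ∪ y '' (s : Set υ)) := by
      rw [Finset.coe_insert, Set.image_insert_eq, Set.union_insert]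
    rw [h1] at hbad
    have h2 := exch hA hbad ih
    refine hy u (acl_le hA ?_ h2)
    have hM : acl K M ≤ acl K (M ∪ y '' {w | w ≠ u}) :=
      acl_le hA (Set.subset_union_left.trans (sub_acl hA _))
    rintro z (hz | hz | ⟨c, hc, rfl⟩)
    · rw [hz]
      exact hM htM
    · exact hM (hAM hz)
    · exact sub_acl hA _ (Or.inr ⟨c, fun h => hu (h ▸ hc), rfl⟩)

theorem ai_insert (hA : ACLA) (hB : ACLB) {ι : Type} [Finite ι] [DecidableEq ι]
    (k : IntermediateField K Ω) (f : ι → Ω) (p : ι) (J : Finset ι) (hv : f p ∉ k)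
    (hle : acl K (f '' (J : Set ι)) ≤ k)
    (hT2 : AlgebraicIndependent K (fun h : {h : ι // h ∈ J} => f h)) :
    AlgebraicIndependent K (fun h : {h : ι // h ∈ insert p J} => f h) := by
  rw [(hB K Ω).1]
  rintro ⟨h, hh⟩ hbad
  rcases eq_or_ne h p with h1 | h1
  · subst h1
    refine hv (hle (acl_le hA ?_ hbad))
    rintro _ ⟨⟨h', hh'⟩, hne, rfl⟩
    refine sub_acl hA _ ⟨h', ?_, rfl⟩
    rcases Finset.mem_insert.1 hh' with h3 | h3
    · exact absurd (Subtype.ext h3) hne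
    · exact h3
  · have hhJ : h ∈ J := (Finset.mem_insert.1 hh).resolve_left h1
    have h2 := ((hB K Ω).1 _ _).1 hT2 ⟨h, hhJ⟩
    have h3 : (fun h : {h : ι // h ∈ insert p J} => f h) ''
        {s | s ≠ ⟨h, hh⟩} ⊆ insert (f p) ((fun h : {h : ι // h ∈ J} => f h) ''
        {s | s ≠ ⟨h, hhJ⟩}) := by
      rintro _ ⟨⟨h', hh'⟩, hne, rfl⟩
      rcases Finset.mem_insert.1 hh' with h4 | h4
      · subst h4
        left
        rfl
      · right
        refine ⟨⟨h', h4⟩, ?_, rfl⟩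
        intro h5
        have h6 : h' = h := congrArg Subtype.val h5
        exact hne (Subtype.ext h6)
    have h4 := exch hA (acl_le hA (h3.trans (sub_acl hA _)) hbad) h2
    refine hv (hle (acl_le hA ?_ h4))
    intro z hz
    rcases hz with hz | ⟨⟨h', hh'⟩, -, hz⟩
    · rw [hz]
      exact sub_acl hA _ ⟨h, hhJ, rfl⟩
    · rw [← hz]
      exact sub_acl hA _ ⟨h', hh', rfl⟩

end closure

section points

variable {K Ω : Type} [Field K] [CharZero K] [Field Ω] [IsAlgClosed Ω] [DecidableEq Ω]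
  [Algebra K Ω]

theorem ip_of (hP : ACLP) {W : Affine K} (hW : W.IsElliptic) {T : Set Ω} {P : (WL Ω W).Point}
    (h : xc P ∈ acl K T) : IP (acl K T : Set Ω) P := (hP K Ω W T P P 0).1 h

theorem xc_of {W : Affine K} {T : Set Ω} {P : (WL Ω W).Point}
    (h : IP (acl K T : Set Ω) P) : xc P ∈ acl K T := by
  rcases h with h | h
  · rw [h, xc_zero]
    exact zero_mem _
  · exact h.1

theorem w_mem (hP : ACLP) {W : Affine K} (hW : W.IsElliptic) {T : Set Ω}
    {P Q : (WL Ω W).Point} (m : ℕ) (h1 : xc P ∈ acl K T) (h2 : xc Q ∈ acl K T) :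
    xc ((2 ^ m) • P - Q) ∈ acl K T := by
  have h3 := ((hP K Ω W T P P m).2.2 (ip_of hP hW h1) (ip_of hP hW h1)).2.2
  exact xc_of ((hP K Ω W T ((2 ^ m) • P) Q 0).2.2 h3 (ip_of hP hW h2)).2.1

theorem p_mem (hP : ACLP) {W : Affine K} (hW : W.IsElliptic) {T : Set Ω}
    {P Q : (WL Ω W).Point} {m : ℕ} (h1 : xc ((2 ^ m) • P - Q) ∈ acl K T)
    (h2 : xc Q ∈ acl K T) : xc P ∈ acl K T := by
  have h3 := ((hP K Ω W T ((2 ^ m) • P - Q) Q 0).2.2 (ip_of hP hW h1) (ip_of hP hW h2)).1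
  rw [sub_add_cancel] at h3
  exact xc_of ((hP K Ω W T P P m).2.1 h3)

end points

section tower

variable {K : Type} [Field K] [CharZero K] {σ : Type} [Fintype σ] [DecidableEq σ]
  {Ω : Type} [Field Ω] [IsAlgClosed Ω] [DecidableEq Ω] [Algebra K Ω]

theorem row_ind {W : σ → Affine K} {n : ℕ} {a : σ} {g : Fin n → MvPolynomial σ K}
    {g0 : MvPolynomial σ K} {x : Fin n → ∀ i, (WL Ω (W i)).Point}
    {x0 : ∀ i, (WL Ω (W i)).Point} (hTD : TD W a g g0 x x0) (j' : Fin n) :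
    AlgebraicIndependent K (fun c : {c : σ // c ≠ a} => xc (x j' c)) :=
  hTD.ind.comp (fun i : {i : σ // i ≠ a} => (Sum.inl (j', i) :
    (Fin n × {i : σ // i ≠ a}) ⊕ {i : σ // i ≠ a})) (fun u v h => by
      have := Sum.inl_injective h
      exact (Prod.mk.inj this).2)

theorem row0_ind {W : σ → Affine K} {n : ℕ} {a : σ} {g : Fin n → MvPolynomial σ K}
    {g0 : MvPolynomial σ K} {x : Fin n → ∀ i, (WL Ω (W i)).Point}
    {x0 : ∀ i, (WL Ω (W i)).Point} (hTD : TD W a g g0 x x0) :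
    AlgebraicIndependent K (fun c : {c : σ // c ≠ a} => xc (x0 c)) :=
  hTD.ind.comp (fun i : {i : σ // i ≠ a} => (Sum.inr i :
    (Fin n × {i : σ // i ≠ a}) ⊕ {i : σ // i ≠ a})) Sum.inr_injective

theorem last_mem (hA : ACLA) (hB : ACLB) {W : σ → Affine K} {n : ℕ} {a : σ}
    {g : Fin n → MvPolynomial σ K}
    {g0 : MvPolynomial σ K} {x : Fin n → ∀ i, (WL Ω (W i)).Point}
    {x0 : ∀ i, (WL Ω (W i)).Point} (hTD : TD W a g g0 x x0) (j' : Fin n) {T : Set Ω}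
    (h : ∀ c, c ≠ a → xc (x j' c) ∈ acl K T) (b : σ) : xc (x j' b) ∈ acl K T := by
  rcases eq_or_ne b a with h1 | h1
  · subst h1
    exact hyp hA hB (fun i => xc (x j' i)) b (g j') (hTD.gne j') (hTD.on j') (row_ind hTD j') T h
  · exact h b h1

theorem last0_mem (hA : ACLA) (hB : ACLB) {W : σ → Affine K} {n : ℕ} {a : σ}
    {g : Fin n → MvPolynomial σ K}
    {g0 : MvPolynomial σ K} {x : Fin n → ∀ i, (WL Ω (W i)).Point}
    {x0 : ∀ i, (WL Ω (W i)).Point} (hTD : TD W a g g0 x x0) {T : Set Ω}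
    (h : ∀ c, c ≠ a → xc (x0 c) ∈ acl K T) (b : σ) : xc (x0 b) ∈ acl K T := by
  rcases eq_or_ne b a with h1 | h1
  · subst h1
    exact hyp hA hB (fun i => xc (x0 i)) b g0 hTD.g0ne hTD.on0 (row0_ind hTD) T h
  · exact h b h1

/-- the closure of all coordinates but one -/
theorem ks (hA : ACLA) (hB : ACLB) {W : σ → Affine K} {n : ℕ} {a : σ}
    {g : Fin n → MvPolynomial σ K}
    {g0 : MvPolynomial σ K} {x : Fin n → ∀ i, (WL Ω (W i)).Point}
    {x0 : ∀ i, (WL Ω (W i)).Point} (hTD : TD W a g g0 x x0) (j1 : Fin n) (c1 : σ) (hc1 : c1 ≠ a) :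
    ∃ T : Set Ω, xc (x j1 c1) ∉ acl K T ∧ (∀ b, xc (x0 b) ∈ acl K T) ∧
      (∀ j' b, j' ≠ j1 → xc (x j' b) ∈ acl K T) ∧
      (∀ b, b ≠ a → b ≠ c1 → xc (x j1 b) ∈ acl K T) := by
  obtain ⟨F, hFd⟩ : ∃ F : (Fin n × {i : σ // i ≠ a}) ⊕ {i : σ // i ≠ a} → Ω,
    F = Sum.elim (fun h : Fin n × {i : σ // i ≠ a} => xc (x h.1 h.2))
      (fun i : {i : σ // i ≠ a} => xc (x0 i)) := ⟨_, rfl⟩
  have hind : AlgebraicIndependent K F := by rw [hFd]; exact hTD.ind
  have hsub : ∀ s, s ≠ Sum.inl (j1, ⟨c1, hc1⟩) →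
      F s ∈ acl K (F '' {s | s ≠ Sum.inl (j1, ⟨c1, hc1⟩)}) := by
    intro s hs
    exact sub_acl hA _ ⟨s, hs, rfl⟩
  have h1 := ((hB K Ω).1 _ _).1 hind (Sum.inl (j1, ⟨c1, hc1⟩))
  refine ⟨F '' {s | s ≠ Sum.inl (j1, ⟨c1, hc1⟩)}, ?_, ?_, ?_, ?_⟩
  · intro h
    refine h1 ?_
    have h2 : F (Sum.inl (j1, ⟨c1, hc1⟩)) = xc (x j1 c1) := by rw [hFd]; rfl
    rw [h2]
    exact h
  · refine last0_mem hA hB hTD ?_
    intro c hc
    have h2 := hsub (Sum.inr ⟨c, hc⟩) (by simp)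
    have h3 : F (Sum.inr ⟨c, hc⟩) = xc (x0 c) := by rw [hFd]; rfl
    rw [h3] at h2
    exact h2
  · intro j' b hj
    refine last_mem hA hB hTD j' ?_ b
    intro c hc
    have h2 := hsub (Sum.inl (j', ⟨c, hc⟩)) (by
      intro h
      exact hj (Prod.mk.inj (Sum.inl_injective h)).1)
    have h3 : F (Sum.inl (j', ⟨c, hc⟩)) = xc (x j' c) := by rw [hFd]; rfl
    rw [h3] at h2
    exact h2
  · intro b hb hbc
    have h2 := hsub (Sum.inl (j1, ⟨b, hb⟩)) (by
      intro h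
      exact hbc (congrArg Subtype.val (Prod.mk.inj (Sum.inl_injective h)).2))
    have h3 : F (Sum.inl (j1, ⟨b, hb⟩)) = xc (x j1 b) := by rw [hFd]; rfl
    rw [h3] at h2
    exact h2

end tower

/-- independence of the row `j` over the closure of everything else -/
theorem row_over (hA : ACLA) (hB : ACLB) {K : Type} [Field K] [CharZero K] {σ : Type} [Fintype σ]
    [DecidableEq σ] {Ω : Type} [Field Ω] [IsAlgClosed Ω] [DecidableEq Ω] [Algebra K Ω]
    {W : σ → Affine K} {n : ℕ} {a : σ} {g : Fin n → MvPolynomial σ K}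
    {g0 : MvPolynomial σ K} {x : Fin n → ∀ i, (WL Ω (W i)).Point}
    {x0 : ∀ i, (WL Ω (W i)).Point} (hTD : TD W a g g0 x x0) (j : Fin n) (SL : Set Ω)
    (hSL : SL = Set.range (fun i => xc (x0 i)) ∪ {z | ∃ j' b, j' ≠ j ∧ z = xc (x j' b)}) :
    AlgebraicIndependent (acl K SL) (fun c : {c : σ // c ≠ a} => xc (x j c)) := by
  classical
  obtain ⟨F, hFd⟩ : ∃ F : ({h : Fin n × {i : σ // i ≠ a} // h.1 ≠ j}) ⊕ {i : σ // i ≠ a} → Ω,
    F = Sum.elim (fun h => xc (x h.1.1 h.1.2)) (fun i : {i : σ // i ≠ a} => xc (x0 i)) := ⟨_, rfl⟩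
  have h1 : AlgebraicIndependent K (Sum.elim F (fun c : {c : σ // c ≠ a} => xc (x j c))) := by
    have h2 := hTD.ind.comp (fun s : (({h : Fin n × {i : σ // i ≠ a} // h.1 ≠ j}) ⊕
        {i : σ // i ≠ a}) ⊕ {c : σ // c ≠ a} => (Sum.elim (Sum.elim (fun h => Sum.inl h.1)
          (fun i => Sum.inr i)) (fun c => Sum.inl (j, c)) s :
          (Fin n × {i : σ // i ≠ a}) ⊕ {i : σ // i ≠ a})) (by
      rintro ((⟨h, hh⟩ | i) | c) ((⟨h', hh'⟩ | i') | c') h3
      · simp only [Sum.elim_inl, Sum.inl.injEq] at h3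
        subst h3
        rfl
      · simp at h3
      · simp only [Sum.elim_inl, Sum.elim_inr, Sum.inl.injEq] at h3
        subst h3
        exact absurd rfl hh
      · simp at h3
      · simp only [Sum.elim_inl, Sum.elim_inr, Sum.inr.injEq] at h3
        subst h3
        rfl
      · simp at h3
      · simp only [Sum.elim_inl, Sum.elim_inr, Sum.inl.injEq] at h3
        subst h3
        exact absurd rfl hh'
      · simp at h3
      · simp only [Sum.elim_inr, Sum.inl.injEq, Prod.mk.injEq, true_and] at h3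
        subst h3
        rfl)
    convert h2 using 1
    funext s
    rcases s with (⟨h, hh⟩ | i) | c
    · rw [hFd]; rfl
    · rw [hFd]; rfl
    · rfl
  have h2 := ((hB K Ω).2.2.1 _ _ _ _).1 h1
  have h3 : acl K (Set.range F) = acl K SL := by
    apply le_antisymm
    · refine acl_le hA ?_
      rintro _ ⟨(⟨h, hh⟩ | i), rfl⟩
      · refine sub_acl hA _ ?_
        rw [hSL]
        exact Or.inr ⟨h.1, h.2, hh, by rw [hFd]; rfl⟩
      · refine sub_acl hA _ ?_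
        rw [hSL]
        exact Or.inl ⟨i, by rw [hFd]; rfl⟩
    · refine acl_le hA ?_
      rw [hSL]
      rintro z (⟨i, rfl⟩ | ⟨j', b, hj, rfl⟩)
      · refine last0_mem hA hB hTD ?_ i
        intro c hc
        exact sub_acl hA _ ⟨Sum.inr ⟨c, hc⟩, by rw [hFd]; rfl⟩
      · refine last_mem hA hB hTD j' ?_ b
        intro c hc
        exact sub_acl hA _ ⟨Sum.inl ⟨(j', ⟨c, hc⟩), hj⟩, by rw [hFd]; rfl⟩
  rw [← h3]
  exact h2.2

/-- the count of (1) -/
theorem cnt (hB : ACLB) {K : Type} [Field K] [CharZero K] {σ : Type} [Fintype σ]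
    [DecidableEq σ] {Ω : Type} [Field Ω] [IsAlgClosed Ω] [DecidableEq Ω] [Algebra K Ω]
    {W : σ → Affine K} {n : ℕ} {a : σ} {g : Fin n → MvPolynomial σ K}
    {g0 : MvPolynomial σ K} {x : Fin n → ∀ i, (WL Ω (W i)).Point}
    {x0 : ∀ i, (WL Ω (W i)).Point} (hTD : TD W a g g0 x x0) (j : Fin n) (V : Finset Ω)
    (hx : ∀ (j' : Fin n) (b : σ), j' < j → xc (x j' b) ∈ acl K (V : Set Ω))
    (hx0 : ∀ b, xc (x0 b) ∈ acl K (V : Set Ω)) : j.val * n + n ≤ V.card := by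
  classical
  have hcσ : Fintype.card {i : σ // i ≠ a} = n := by
    rw [Fintype.card_subtype_compl, hTD.card]
    simp
  obtain ⟨F, hFd⟩ : ∃ F : (Fin n × {i : σ // i ≠ a}) ⊕ {i : σ // i ≠ a} → Ω,
    F = Sum.elim (fun h : Fin n × {i : σ // i ≠ a} => xc (x h.1 h.2))
      (fun i : {i : σ // i ≠ a} => xc (x0 i)) := ⟨_, rfl⟩
  have hind : AlgebraicIndependent K F := by rw [hFd]; exact hTD.ind
  obtain ⟨φ, hφ⟩ : ∃ φ : (Fin j.val × {i : σ // i ≠ a}) ⊕ {i : σ // i ≠ a} →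
      (Fin n × {i : σ // i ≠ a}) ⊕ {i : σ // i ≠ a},
    φ = Sum.map (fun h => (Fin.castLE j.2.le h.1, h.2)) id := ⟨_, rfl⟩
  have hinj : Function.Injective φ := by
    rw [hφ]
    refine Function.Injective.sumMap ?_ Function.injective_id
    rintro ⟨u, v⟩ ⟨u', v'⟩ h
    obtain ⟨h3, h4⟩ := Prod.mk.inj h
    rw [Prod.mk.injEq]
    refine ⟨?_, h4⟩
    exact Fin.castLE_injective _ h3
  have h2 := (hB K Ω).2.1 ((Fin j.val × {i : σ // i ≠ a}) ⊕ {i : σ // i ≠ a})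
    (F ∘ φ) V (hind.comp φ hinj) (by
      rintro (⟨u, v⟩ | i)
      · have h3 : (F ∘ φ) (Sum.inl (u, v)) = xc (x (Fin.castLE j.2.le u) v) := by
          rw [hFd, hφ]; rfl
        rw [h3]
        exact hx _ _ (by
          rw [Fin.lt_def]
          exact u.2)
      · have h3 : (F ∘ φ) (Sum.inr i) = xc (x0 i) := by
          rw [hFd, hφ]; rfl
        rw [h3]
        exact hx0 i)
  rw [Fintype.card_sum, Fintype.card_prod, Fintype.card_fin, hcσ] at h2
  exact h2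

theorem t (hH : HLEM) (hR : REM) (hD : DLOW) (hF : DGF) (hA : ACLA) (hB : ACLB) (hP : ACLP) :
    HARDS := by
  classical
  intro D0 n
  obtain ⟨C, hC1, hHL⟩ := hH D0 n
  obtain ⟨q, hq⟩ : ∃ q, q = 2 * C * n ^ 2 := ⟨_, rfl⟩
  refine ⟨q + C + 1, by omega, ?_⟩
  intro K _ _ σ _ _ W hW a g g0 hdeg hnf Ω _ _ _ _ x x0 e N hTD he hN j J hJ hTW
  obtain ⟨hT1, hT2⟩ := hTW
  obtain ⟨V, hV⟩ : ∃ V : Finset Ω, V = (Finset.univ : Finset (Fin j.val × σ)).image
      (fun h => wv W x x0 e (Fin.castLE j.2.le h.1, h.2)) := ⟨_, rfl⟩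
  have hVmem : ∀ (j' : Fin n) (b : σ), j' < j → wv W x x0 e (j', b) ∈ (V : Set Ω) := by
    intro j' b h
    rw [hV, Finset.coe_image]
    exact ⟨(⟨j'.val, h⟩, b), by simp, rfl⟩
  have hVle : ∀ T : Set Ω, (∀ (j' : Fin n) (b : σ), j' < j → wv W x x0 e (j', b) ∈ acl K T) →
      (V : Set Ω) ⊆ (acl K T : Set Ω) := by
    intro T h z hz
    rw [hV, Finset.coe_image] at hz
    obtain ⟨⟨j', b⟩, -, rfl⟩ := hz
    exact h _ b (by
      rw [Fin.lt_def]
      exact j'.2)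
  have hcσ : Fintype.card {i : σ // i ≠ a} = n := by
    rw [Fintype.card_subtype_compl, hTD.card]
    simp
  -- (1)
  have h1 : ∃ i, xc (x0 i) ∉ acl K (V : Set Ω) := by
    by_contra hcon
    push Not at hcon
    have hx : ∀ (j' : Fin n) (b : σ), j' < j → xc (x j' b) ∈ acl K (V : Set Ω) := fun j' b h =>
      p_mem hP (hW b) (sub_acl hA _ (hVmem j' b h)) (hcon b)
    have h2 := cnt hB hTD j V hx hcon
    have h3 : V.card ≤ j.val * (n + 1) := by
      rw [hV]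
      refine Finset.card_image_le.trans ?_
      rw [Finset.card_univ, Fintype.card_prod, Fintype.card_fin, hTD.card]
    have h4 : j.val * n + n ≤ j.val * (n + 1) := h2.trans h3
    have h5 := j.2
    nlinarith
  -- (2)
  obtain ⟨B', hB1, hB2⟩ := minset (K := K) hA (V : Set Ω) (fun i => xc (x0 i))
  have hne : B'.Nonempty := by
    rw [Finset.nonempty_iff_ne_empty]
    intro h
    obtain ⟨i, hi⟩ := h1
    refine hi ?_
    have h2 := hB1 i
    rw [h] at h2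
    simpa using h2
  obtain ⟨b0, hb0⟩ := hne
  obtain ⟨τ, hτ⟩ : ∃ τ : Ω, τ = xc (x0 b0) := ⟨_, rfl⟩
  obtain ⟨A, hAd⟩ : ∃ A : Set Ω, A = (V : Set Ω) ∪
    (fun i => xc (x0 i)) '' ((B'.erase b0 : Finset σ) : Set σ) := ⟨_, rfl⟩
  have hτA : τ ∉ acl K A := by
    rw [hτ, hAd]
    exact hB2 b0 hb0
  obtain ⟨M, hM⟩ : ∃ M : Set Ω, M = Set.range (fun i => xc (x0 i)) ∪
    {z | ∃ j' b, j' < j ∧ z = xc (x j' b)} := ⟨_, rfl⟩
  obtain ⟨y, hy⟩ : ∃ y : {h : Fin n × {i : σ // i ≠ a} // j < h.1} ⊕ {c : σ // c ≠ a} → Ω,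
    y = Sum.elim (fun h : {h : Fin n × {i : σ // i ≠ a} // j < h.1} => xc (x h.1.1 h.1.2))
      (fun c : {c : σ // c ≠ a} => wv W x x0 e (j, c)) := ⟨_, rfl⟩
  have hM0 : ∀ i, xc (x0 i) ∈ acl K M := fun i =>
    sub_acl hA _ (by rw [hM]; exact Or.inl ⟨i, rfl⟩)
  have hMx : ∀ (j' : Fin n) (b : σ), j' < j → xc (x j' b) ∈ acl K M := fun j' b h =>
    sub_acl hA _ (by rw [hM]; exact Or.inr ⟨j', b, h, rfl⟩)
  have hAM : A ⊆ (acl K M : Set Ω) := by
    rw [hAd]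
    rintro z (hz | ⟨i, -, rfl⟩)
    · exact hVle M (fun j' b h => w_mem hP (hW b) _ (hMx j' b h) (hM0 b)) hz
    · exact hM0 i
  -- (4)
  have hyu : ∀ u, y u ∉ acl K (M ∪ y '' {w | w ≠ u}) := by
    rintro (⟨⟨j'', ⟨c, hc⟩⟩, hj⟩ | ⟨c, hc⟩) hbad
    · obtain ⟨T, hT1, hT2, hT3, hT4⟩ := ks hA hB hTD j'' c hc
      have hj' : j < j'' := hj
      have h2 : y (Sum.inl ⟨(j'', ⟨c, hc⟩), hj⟩) = xc (x j'' c) := by rw [hy]; rfl
      rw [h2] at hbad
      refine hT1 (acl_le hA ?_ hbad)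
      rintro z (hz | ⟨(⟨⟨j3, ⟨c3, hc3⟩⟩, hj3⟩ | ⟨c3, hc3⟩), hw, rfl⟩)
      · rw [hM] at hz
        rcases hz with ⟨i, rfl⟩ | ⟨j', b, hj'', rfl⟩
        · exact hT2 i
        · exact hT3 j' b (ne_of_lt (hj''.trans hj'))
      · have h3 : y (Sum.inl ⟨(j3, ⟨c3, hc3⟩), hj3⟩) = xc (x j3 c3) := by rw [hy]; rfl
        rw [h3]
        rcases eq_or_ne j3 j'' with h4 | h4
        · subst h4
          refine hT4 c3 hc3 ?_
          intro h5
          subst h5
          exact hw rfl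
        · exact hT3 j3 c3 h4
      · have h3 : y (Sum.inr ⟨c3, hc3⟩) = wv W x x0 e (j, c3) := by rw [hy]; rfl
        rw [h3]
        exact w_mem hP (hW c3) _ (hT3 j c3 (ne_of_lt hj')) (hT2 c3)
    · obtain ⟨T, hT1, hT2, hT3, hT4⟩ := ks hA hB hTD j c hc
      have h2 : y (Sum.inr ⟨c, hc⟩) = wv W x x0 e (j, c) := by rw [hy]; rfl
      rw [h2] at hbad
      refine hT1 (p_mem hP (hW c) (m := e j) (Q := x0 c) ?_ (hT2 c))
      refine acl_le hA ?_ hbad
      rintro z (hz | ⟨(⟨⟨j3, ⟨c3, hc3⟩⟩, hj3⟩ | ⟨c3, hc3⟩), hw, rfl⟩)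
      · rw [hM] at hz
        rcases hz with ⟨i, rfl⟩ | ⟨j', b, hj'', rfl⟩
        · exact hT2 i
        · exact hT3 j' b (ne_of_lt hj'')
      · have h3 : y (Sum.inl ⟨(j3, ⟨c3, hc3⟩), hj3⟩) = xc (x j3 c3) := by rw [hy]; rfl
        rw [h3]
        exact hT3 j3 c3 (ne_of_gt hj3)
      · have h3 : y (Sum.inr ⟨c3, hc3⟩) = wv W x x0 e (j, c3) := by rw [hy]; rfl
        rw [h3]
        refine w_mem hP (hW c3) _ (hT4 c3 hc3 ?_) (hT2 c3)
        intro h5
        subst h5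
        exact hw rfl
  obtain ⟨S, hS⟩ : ∃ S : Set Ω, S = A ∪ {z | ∃ j'' b, j < j'' ∧ z = xc (x j'' b)} := ⟨_, rfl⟩
  obtain ⟨Tk, hTk⟩ : ∃ Tk : Set Ω, Tk = S ∪
    Set.range fun c : {c : σ // c ≠ a} => xc ((2 ^ e j) • x j c - x0 c) := ⟨_, rfl⟩
  obtain ⟨k, hk⟩ : ∃ k : IntermediateField K Ω, k = acl K Tk := ⟨_, rfl⟩
  have hSk : ∀ z ∈ S, z ∈ k := fun z hz => by
    rw [hk]
    exact sub_acl hA _ (by rw [hTk]; exact Or.inl hz)
  have hVk : ∀ (j' : Fin n) (b : σ), j' < j → wv W x x0 e (j', b) ∈ k := fun j' b h =>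
    hSk _ (by rw [hS, hAd]; exact Or.inl (Or.inl (hVmem j' b h)))
  have hxk : ∀ (j'' : Fin n) (b : σ), j < j'' → xc (x j'' b) ∈ k := fun j'' b h =>
    hSk _ (by rw [hS]; exact Or.inr ⟨j'', b, h, rfl⟩)
  have hwk : ∀ c, c ≠ a → wv W x x0 e (j, c) ∈ k := fun c hc => by
    rw [hk]
    exact sub_acl hA _ (by rw [hTk]; exact Or.inr ⟨⟨c, hc⟩, rfl⟩)
  have hτk : τ ∉ k := by
    intro hbad
    refine notmem_of hA A M τ y hAM (by rw [hτ]; exact hM0 b0) hτA hyu Finset.univ ?_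
    rw [hk] at hbad
    refine acl_le hA ?_ hbad
    rw [hTk, hS]
    rintro z ((hz | ⟨j'', b, hj, rfl⟩) | ⟨⟨c, hc⟩, rfl⟩)
    · exact sub_acl hA _ (Or.inl hz)
    · refine last_mem hA hB hTD j'' ?_ b
      intro c hc
      exact sub_acl hA _ (Or.inr ⟨Sum.inl ⟨(j'', ⟨c, hc⟩), hj⟩, by simp, by rw [hy]; rfl⟩)
    · exact sub_acl hA _ (Or.inr ⟨Sum.inr ⟨c, hc⟩, by simp, by rw [hy]; rfl⟩)
  -- (5)
  have hall : ∀ z : Ω, IsAlgebraic (IntermediateField.adjoin k {τ}) z := by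
    intro z
    apply conv'
    rw [← (hA K Ω ((k : Set Ω) ∪ {τ}) ∅).1]
    have hkk : ∀ z ∈ k, z ∈ acl K ((k : Set Ω) ∪ {τ}) := fun z hz =>
      sub_acl hA _ (Or.inl hz)
    have hττ : τ ∈ acl K ((k : Set Ω) ∪ {τ}) := sub_acl hA _ (Or.inr rfl)
    have hx0 : ∀ i, xc (x0 i) ∈ acl K ((k : Set Ω) ∪ {τ}) := by
      intro i
      refine acl_le hA ?_ (hB1 i)
      rintro z (hz | ⟨c, hc, rfl⟩)
      · exact hkk _ (hSk _ (by rw [hS, hAd]; exact Or.inl (Or.inl hz)))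
      · rcases eq_or_ne c b0 with h | h
        · subst h
          change xc (x0 c) ∈ acl K ((k : Set Ω) ∪ {τ})
          rw [← hτ]
          exact hττ
        · exact hkk _ (hSk _ (by
            rw [hS, hAd]
            exact Or.inl (Or.inr ⟨c, by simpa [h] using hc, rfl⟩)))
    refine acl_le hA ?_ (hTD.all z)
    rintro _ (⟨⟨j', b⟩, rfl⟩ | ⟨b, rfl⟩)
    · change xc (x j' b) ∈ acl K ((k : Set Ω) ∪ {τ})
      rcases lt_trichotomy j' j with h | h | h
      · exact p_mem hP (hW b) (hkk _ (hVk j' b h)) (hx0 b)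
      · subst h
        refine last_mem hA hB hTD j' ?_ b
        intro c hc
        exact p_mem hP (hW c) (hkk _ (hwk c hc)) (hx0 c)
      · exact hkk _ (hxk j' b h)
    · exact hx0 b
  have hIA : IsAlgClosed k := by
    rw [hk]
    exact (hA K Ω Tk ∅).2.2.2.2.2.1 inferInstance
  have htr : ∀ z : Ω, z ∉ k → Transcendental k z := by
    intro z hz
    have h1 := (hA K Ω Tk ∅).2.2.2.2.2.2 inferInstance z
    rw [← hk] at h1
    exact h1.resolve_left hz
  have hkz : ∀ z : Ω, z ∈ k → IsAlgebraic k z := fun z hz =>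
    isAlgebraic_algebraMap (⟨z, hz⟩ : k)
  have htτ := htr τ hτk
  -- (3), (6)
  obtain ⟨SL, hSL⟩ : ∃ SL : Set Ω, SL = Set.range (fun i => xc (x0 i)) ∪
    {z | ∃ j' b, j' ≠ j ∧ z = xc (x j' b)} := ⟨_, rfl⟩
  have hL0 : ∀ i, xc (x0 i) ∈ acl K SL := fun i =>
    sub_acl hA _ (by rw [hSL]; exact Or.inl ⟨i, rfl⟩)
  have hLx : ∀ (j' : Fin n) (b : σ), j' ≠ j → xc (x j' b) ∈ acl K SL := fun j' b h =>
    sub_acl hA _ (by rw [hSL]; exact Or.inr ⟨j', b, h, rfl⟩)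
  have hSSL : S ⊆ (acl K SL : Set Ω) := by
    rw [hS, hAd]
    rintro z ((hz | ⟨i, -, rfl⟩) | ⟨j'', b, hj, rfl⟩)
    · exact hVle SL (fun j' b h => w_mem hP (hW b) _ (hLx j' b (ne_of_lt h)) (hL0 b)) hz
    · exact hL0 i
    · exact hLx j'' b (ne_of_gt hj)
  have hLall : ∀ z : Ω, IsAlgebraic (IntermediateField.adjoin (acl K SL)
      (Set.range fun c : {c : σ // c ≠ a} => xc (x j c))) z := by
    intro z
    apply conv'
    rw [← (hA K Ω _ ∅).1]
    refine acl_le hA ?_ (hTD.all z)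
    rintro _ (⟨⟨j', b⟩, rfl⟩ | ⟨b, rfl⟩)
    · change xc (x j' b) ∈ acl K _
      rcases eq_or_ne j' j with h | h
      · subst h
        refine last_mem hA hB hTD j' ?_ b
        intro c hc
        exact sub_acl hA _ (Or.inr ⟨⟨c, hc⟩, rfl⟩)
      · exact sub_acl hA _ (Or.inl (hLx j' b h))
    · exact sub_acl hA _ (Or.inl (hL0 b))
  have hCe : C ≤ 4 ^ e j := by
    have := he j
    omega
  have h6 := hHL K σ W a (g j) hTD.card hW (hdeg j) (hnf j) Ω (x j) x0 (e j) SL S τ hCe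
    (hTD.nz j) (hTD.on j) (fun i => ip_of hP (hW i) (hL0 i)) hSSL (by rw [hτ]; exact hL0 b0)
    (row_over hA hB hTD j SL hSL) hLall k (by rw [hk, hTk]) htτ hall
  obtain ⟨v, hv⟩ : ∃ v : Ω, v = wv W x x0 e (j, a) := ⟨_, rfl⟩
  have h6' : ∀ c, c ≠ a → dg k τ (xc (x0 c)) ≤ C * dg k τ v := by
    intro c hc
    rw [hv]
    exact h6 c hc
  -- (7)
  have h7 : ∃ c, c ≠ a ∧ xc (x0 c) ∉ k := by
    by_contra hcon
    push Not at hcon
    refine hτk ?_
    rw [hτ, hk]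
    refine last0_mem hA hB hTD ?_ b0
    intro c hc
    rw [← hk]
    exact hcon c hc
  have hdv : 0 < dg k τ v := by
    obtain ⟨c, hc, hck⟩ := h7
    have h8 := (hF k Ω τ (xc (x0 c)) htτ).2.2.2 (hall _) (htr _ hck)
    have h9 := h6' c hc
    have hC0 : (0 : ℝ) < C := by exact_mod_cast hC1
    by_contra hneg
    have h10 : (C : ℝ) * dg k τ v ≤ 0 := mul_nonpos_of_nonneg_of_nonpos hC0.le (not_lt.1 hneg)
    linarith
  have hvt : Transcendental k v := by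
    intro h
    rw [(hF k Ω τ v htτ).2.1 h] at hdv
    exact lt_irrefl _ hdv
  have hvk : v ∉ k := fun h => hvt (hkz v h)
  -- (8)
  have h8 : ∀ h : Fin n × {i : σ // i ≠ a},
      (4 : ℝ) ^ e h.1 * dg k τ (xc (x h.1 h.2)) ≤ 2 * C * dg k τ v := by
    rintro ⟨j', ⟨b, hb⟩⟩
    change (4 : ℝ) ^ e j' * dg k τ (xc (x j' b)) ≤ 2 * C * dg k τ v
    rcases lt_or_ge j j' with h | h
    · rw [(hF k Ω τ _ htτ).2.1 (hkz _ (hxk j' b h)), mul_zero]
      positivity
    · have hwk' : wv W x x0 e (j', b) ∈ k := by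
        rcases lt_or_eq_of_le h with h9 | h9
        · exact hVk j' b h9
        · rw [h9]
          exact hwk b hb
      have hIPw : IP (k : Set Ω) ((2 ^ e j') • x j' b - x0 b) := by
        rw [hk] at hwk' ⊢
        exact ip_of hP (hW b) hwk'
      have := hW b
      have h9 := hD K Ω (W b) k τ hIA htτ hall (x j' b) ((2 ^ e j') • x j' b - x0 b) (e j') hIPw
      rw [sub_sub_cancel] at h9
      have h10 := h6' b hb
      linarith
  have hsum : ∑ h : Fin n × {i : σ // i ≠ a}, ((N h.1 : ℕ) : ℝ) * dg k τ (xc (x h.1 h.2)) <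
      dg k τ v := by
    have h9 : ((q + C + 1 : ℕ) : ℝ) * ∑ h : Fin n × {i : σ // i ≠ a},
        ((N h.1 : ℕ) : ℝ) * dg k τ (xc (x h.1 h.2)) ≤ (q : ℝ) * dg k τ v := by
      rw [Finset.mul_sum]
      have h10 : ∀ h ∈ (Finset.univ : Finset (Fin n × {i : σ // i ≠ a})),
          ((q + C + 1 : ℕ) : ℝ) * (((N h.1 : ℕ) : ℝ) * dg k τ (xc (x h.1 h.2))) ≤
            2 * C * dg k τ v := by
        intro h _
        refine le_trans ?_ (h8 h)
        rw [← mul_assoc]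
        refine mul_le_mul_of_nonneg_right ?_ (hF k Ω τ _ htτ).1
        have h11 := (hN h.1).le
        rw [mul_comm] at h11
        exact_mod_cast h11
      refine (Finset.sum_le_sum h10).trans ?_
      rw [Finset.sum_const, Finset.card_univ, Fintype.card_prod, Fintype.card_fin, hcσ, hq,
        nsmul_eq_mul]
      push_cast
      apply le_of_eq
      ring
    have h10 : (q : ℝ) * dg k τ v < ((q + C + 1 : ℕ) : ℝ) * dg k τ v := by
      refine mul_lt_mul_of_pos_right ?_ hdv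
      exact_mod_cast (by omega : q < q + C + 1)
    have h11 : (0 : ℝ) < ((q + C + 1 : ℕ) : ℝ) := by exact_mod_cast (by omega : 0 < q + C + 1)
    exact lt_of_mul_lt_mul_left (h9.trans_lt h10) h11.le
  -- (9)
  have hJk : ∀ h ∈ J, wv W x x0 e h ∈ k := by
    rintro ⟨j', b⟩ hh
    rcases (hJ _).1 hh with h9 | ⟨h9, h10⟩
    · exact hVk j' b h9
    · have h11 : j' = j := h9
      subst h11
      exact hwk b h10
  have hSJ : wv W x x0 e '' (J : Set (Fin n × σ)) ⊆ (k : Set Ω) := by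
    rintro _ ⟨h, hh, rfl⟩
    exact hJk h hh
  have hLI := hR K Ω k (wv W x x0 e '' (J : Set (Fin n × σ))) τ v hSJ htτ hvt hall
    (Fin n × {i : σ // i ≠ a}) (fun h => xc (x h.1 h.2)) (fun h => N h.1) hsum hT1
  refine ⟨?_, ?_⟩
  · rw [Finset.coe_insert, Set.image_insert_eq, ← hv]
    exact hLI
  · refine ai_insert hA hB k (wv W x x0 e) (j, a) J (by rw [← hv]; exact hvk) ?_ hT2
    rw [hk] at hSJ ⊢
    exact acl_le hA hSJ

end Pool.Agent.Helper92.TN.HARDS
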