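import Pool.Agent.Helper92.TN.AsmI
import Pool.Agent.Helper92.TN.HARDS
import Pool.Agent.Helper60.T3.Ind
import Pool.Agent.Helper3.TN.Main
import Pool.Agent.Helper4.TN.INTP
import Pool.Agent.Helper57.TN.NPI
import Pool.Agent.Helper62.TN.SYMF
import Pool.Agent.Helper47.TN.NDEG
import Pool.Agent.Helper12.TN.REMF
import Pool.Agent.Helper46.TN.DGR
import Pool.Agent.Helper91.TN.DGF
import Pool.Agent.Helper36.TN.DEGB
import Pool.Agent.Helper23.TN.REM
import Pool.Agent.Helper87.TN.ACLA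
import Pool.Agent.Helper69.TN.ACLB
import Pool.Agent.Helper61.TN.ACLP
import Pool.Agent.Helper40.TN.ADDG
import Pool.Agent.Helper30.TN.DUPG
import Pool.Agent.Helper72.TN.DLOW
import Pool.Agent.Helper33.TN.GRID
import Pool.Agent.Helper76.TN.NRMP
import Pool.Agent.Helper36.TN.TCH
import Pool.Agent.Helper9.TN.TAUT
import Pool.Agent.Helper81.TN.SEL
import Pool.Agent.Helper57.TN.GEN
import Pool.Agent.Helper79.TN.ELMW
import Pool.Agent.Helper50.TN.JREL
import Pool.Agent.Helper34.TN.RELB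
import Pool.Agent.Helper2.TN.HLEM
import Pool.Agent.Helper48.TN.GENI
import Pool.Agent.Helper16.TN.DAL
import Pool.Agent.Helper51.TN.TRC
import Pool.Agent.Helper38.TN.NISO
import Pool.Agent.Helper57.TN.EASYS
import Pool.Agent.Helper95.TN.NDGP
import Pool.Agent.Helper91.TN.NZPP
import Pool.Agent.Helper44.TN.RDX

/-!
# Project TN (MP_a41896_nt), IND: the independence theorems INDQ, S_INDN, S_INDF and the zero estimates ZEN, ZENF, unconditional
-/

set_option autoImplicit false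

namespace Pool.Agent.Helper92.TN.MainI

open Pool.Agent.Helper42.SG Pool.Agent.Helper92.TN
open Pool.Agent.Helper60.T3 (th_SUBF th_DADD th_NZ1 th_DEX th_TORS)

theorem th_INTP : INTP := Pool.Agent.Helper4.TN.INTP.t
theorem th_NPI : NPI := Pool.Agent.Helper57.TN.NPI.t
theorem th_SYMF : SYMF := Pool.Agent.Helper62.TN.SYMF.t
theorem th_NDEG : NDEG := Pool.Agent.Helper47.TN.NDEG.t th_INTP th_NPI th_SYMF
theorem th_REMF : REMF := Pool.Agent.Helper12.TN.REMF.t th_NDEG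
theorem th_DGR : DGR := Pool.Agent.Helper46.TN.DGR.t
theorem th_DGF : DGF := Pool.Agent.Helper91.TN.DGF.t
theorem th_DEGB : DEGB := Pool.Agent.Helper36.TN.DEGB.t th_REMF th_DGR th_DGF
theorem th_REM : REM := Pool.Agent.Helper23.TN.REM.t th_DEGB
theorem th_ACLA : ACLA := Pool.Agent.Helper87.TN.ACLA.t
theorem th_ACLB : ACLB := Pool.Agent.Helper69.TN.ACLB.t
theorem th_ACLP : ACLP :=
  Pool.Agent.Helper61.TN.ACLP.t th_ACLA th_SUBF th_NZ1 Pool.Agent.Helper12.SGB.th_EDUP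
theorem th_ADDG : ADDG := Pool.Agent.Helper40.TN.ADDG.t th_DEGB th_DGF
theorem th_DUPG : DUPG := Pool.Agent.Helper30.TN.DUPG.t th_DEGB th_DGF
theorem th_DLOW : DLOW := Pool.Agent.Helper72.TN.DLOW.t th_DGR th_DGF th_TORS th_SUBF
theorem th_GRID : GRID := Pool.Agent.Helper33.TN.GRID.t th_NZ1
theorem th_NRMP : NRMP := Pool.Agent.Helper76.TN.NRMP.t
theorem th_TCH : TCH := Pool.Agent.Helper36.TN.TCH.t th_NRMP th_GRID
theorem th_TAUT : TAUT := Pool.Agent.Helper9.TN.TAUT.t th_ACLA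
theorem th_SEL : SEL := Pool.Agent.Helper81.TN.SEL.t th_TCH th_TAUT th_ACLP
theorem th_GEN : GEN := Pool.Agent.Helper57.TN.GEN.t th_ACLA th_DADD th_DEX
theorem th_ELMW : ELMW := Pool.Agent.Helper79.TN.ELMW.t
theorem th_JREL : JREL := Pool.Agent.Helper50.TN.JREL.t
theorem th_RELB : RELB :=
  Pool.Agent.Helper34.TN.RELB.t th_ELMW th_JREL th_ACLA th_ACLB th_ACLP
    Pool.Agent.Helper12.SGB.th_ELAW Pool.Agent.Helper12.SGB.th_EDUP
theorem th_HLEM : HLEM :=
  Pool.Agent.Helper2.TN.HLEM.t th_SEL th_GEN th_RELB th_DEGB th_DGR th_DGF th_ADDG th_DUPG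
    th_DLOW th_ACLA th_ACLB th_ACLP
theorem th_GENI : GENI := Pool.Agent.Helper48.TN.GENI.t
theorem th_DAL2 : DAL2 := Pool.Agent.Helper16.TN.DAL.t th_GENI Pool.Agent.Helper38.UQ.DERF.t
theorem th_TRC : TRC := Pool.Agent.Helper51.TN.TRC.t th_DADD
theorem th_NISO : NISO := Pool.Agent.Helper38.TN.NISO.t th_ACLA th_ACLB
theorem th_NFL2 : NFL2 := nfl2 th_GENI th_DAL2 th_TRC th_NISO
theorem th_EASYS : EASYS :=
  Pool.Agent.Helper57.TN.EASYS.t th_REM th_DLOW th_DGF th_ACLA th_ACLB th_ACLP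
theorem th_HARDS : HARDS :=
  Pool.Agent.Helper92.TN.HARDS.t th_HLEM th_REM th_DLOW th_DGF th_ACLA th_ACLB th_ACLP
theorem th_NDGP : NDGP := Pool.Agent.Helper95.TN.NDGP.t th_ACLA th_ACLB th_ACLP
theorem th_NZPP : NZPP := Pool.Agent.Helper91.TN.NZPP.t
theorem th_RDX : RDX := Pool.Agent.Helper44.TN.RDX.t th_ACLA

/-- independence on hypersurfaces without flat direction -/
theorem th_INDQ : INDQ := indq th_EASYS th_HARDS th_NDGP th_NZPP th_RDX

theorem th_S_INDN : Pool.Agent.Helper42.TN.S_INDN := s_indn th_INDQ th_NFL2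

theorem th_S_INDF : Pool.Agent.Helper42.TN.S_INDF := s_indf th_INDQ

theorem th_ZEN : Pool.Agent.Helper42.TN.ZEN := Pool.Agent.Helper3.TN.Main.th_ZEN th_S_INDN

theorem th_ZENF : Pool.Agent.Helper42.TN.ZENF := Pool.Agent.Helper3.TN.Main.th_ZENF th_S_INDF

end Pool.Agent.Helper92.TN.MainI
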