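import Pool.Agent.Helper92.TN.GoalsD
import Pool.Agent.Helper60.T3.GoalsI

/-!
# Project TN (MP_a41896_nt), IND, part H: one hypersurface without flat direction

`x = (x_b)_(b ∈ σ)` a generic point of the hypersurface `g = 0` in `∏ E_b` (`x`-coordinates `X_b`, `|σ| = n + 1`), `a ∈ σ`,
`w_b = 2^e x_b - x0_b`.  HLEM: the degree of `x(w_a)` is at least `1/C` times the degrees of the `x(x0_c)`, `c ≠ a`, over every
algebraically closed field `k` which contains the `x(w_c)`, `c ≠ a`.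
PROOF. Torsion translations: an automorphism `τ` over `L ∋ x0` maps `x_c` to `x_c + t_c`, `2^e t_c = 0` (`c ≠ a`); it fixes `w_c`;
`υ = τ(x_a) - x_a`, `2^e υ = τ(w_a) - w_a`.  Choose `n` of them such that the normal vectors at `x` and at the `τ_i x` are linearly
independent (no flat direction).  Then a derivation which kills the `υ_i` kills everything, so every `X_b` satisfies a relation of bounded
degree with the `x(υ_i)`.

Notation (`Helper60.T3`): `WL Ω W` the curve over `Ω`, `xc`, `ps` the coordinates `x` and `ψ = 2y + a₁x + a₃`, `IP F P`: `P = 0` or both are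
in `F`, `zd D P = D x / ψ`.  Landed theorems which may be used everywhere: EDUP, ELAW, RPOL (`Pool/Agent/Helper12/SGB/All.lean`), NZ1
(`Helper42/SG/GoalsT.lean`), SUBF (`Pool.Agent.Helper90`: `Helper60.T3.S_SUBF`), `Helper92.UQ.DERF`; `Helper60.T3.S_DADD`, `S_DEX`, `S_TORS` may be
hypotheses.
-/

set_option autoImplicit false

open MvPolynomial

namespace Pool.Agent.Helper92.TN

open WeierstrassCurve
open Pool.Agent.Helper29.BL Pool.Agent.Helper92.Ru Pool.Agent.Helper42.SG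
open Pool.Agent.Helper60.T3 (WL IP zd)

noncomputable section

/-! ## Definitions -/

/-- the elements of `Ω` which are algebraic over `K(S)` -/
def acl (K : Type) [Field K] {Ω : Type} [Field Ω] [Algebra K Ω] (S : Set Ω) :
    IntermediateField K Ω :=
  (algebraicClosure (IntermediateField.adjoin K S) Ω).restrictScalars K

/-- the point `τ(P)` -/
def tp {K Ω : Type} [Field K] [Field Ω] [Algebra K Ω] [DecidableEq Ω] (τ : Ω ≃ₐ[K] Ω)
    {W : Affine K} (P : (WL Ω W).Point) : (WL Ω W).Point :=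
  Affine.Point.map (W' := W) τ.toAlgHom P

/-- the normal vector of `g = 0` at `x`: `ψ_b ∂_b g` -/
def nv {K Ω σ : Type} [Field K] [Field Ω] [Algebra K Ω] (W : σ → Affine K)
    (g : MvPolynomial σ K) (x : ∀ b, (WL Ω (W b)).Point) (b : σ) : Ω :=
  ps (x b) * aeval (fun i => xc (x i)) (pderiv b g)

/-- no flat direction: over every algebraically closed `Ω₁ ⊇ K`, at a generic point of `g = 0`, the `ψ_b ∂_b g` are linearly
independent over `Ω₁` -/
def NotFlat {K σ : Type} [Field K] [Fintype σ] (W : σ → Affine K) (a : σ)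
    (g : MvPolynomial σ K) : Prop :=
  ∀ (Ω₁ Ω₂ : Type) [Field Ω₁] [IsAlgClosed Ω₁] [Field Ω₂] [Algebra K Ω₁] [Algebra Ω₁ Ω₂]
    [Algebra K Ω₂] [IsScalarTower K Ω₁ Ω₂] (X Ψ : σ → Ω₂),
    (∀ i, Ψ i ^ 2 = Bf (WL Ω₂ (W i)) (X i)) → aeval X g = 0 →
    AlgebraicIndependent Ω₁ (fun i : {i : σ // i ≠ a} => X i) → ∀ α : σ → Ω₁,
    ∑ b, algebraMap Ω₁ Ω₂ (α b) * (Ψ b * aeval X (pderiv b g)) = 0 → α = 0

/-- a relation of degree `≤ d` between `f` and the `z_i` -/
def Rw (κ : Type) [Field κ] {L ι : Type} [Field L] [Algebra κ L] (z : ι → L) (f : L) (d : ℕ) :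
    Prop :=
  ∃ P : MvPolynomial (Option ι) κ, P ≠ 0 ∧ (∀ o, degreeOf o P ≤ d) ∧
    aeval (fun o : Option ι => o.elim f z) P = 0

/-! ## Algebraic closure -/

/-- **ACLA**: the closure operator. No hypotheses.
PROOF. `mem_algebraicClosure_iff`-type lemmas; `algebraicClosure` of a field in an algebraically closed field is algebraically closed; `adjoin K (acl K S ∪ T) ⊆ acl K (S ∪ T)`, algebraic over algebraic. Exchange: if `z` is algebraic over `K(S)(v)` but not over `K(S)`, then `v` is algebraic over `K(S)(z)` (e.g. from the polynomial relation between `z` and `v`; or `algebraicIndependent` exchange lemmas: `AlgebraicIndependent.matroid`). Last: an element of `Ω` is algebraic over `k` iff in `k` (`k` algebraically closed). -/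
def ACLA : Prop :=
  ∀ (K Ω : Type) [Field K] [Field Ω] [Algebra K Ω] (S T : Set Ω),
    (∀ z, z ∈ acl K S ↔ IsAlgebraic (IntermediateField.adjoin K S) z) ∧
    S ⊆ (acl K S : Set Ω) ∧ (S ⊆ T → acl K S ≤ acl K T) ∧
    acl K ((acl K S : Set Ω) ∪ T) = acl K (S ∪ T) ∧
    (∀ z v, z ∈ acl K (insert v S) → z ∉ acl K S → v ∈ acl K (insert z S)) ∧
    (IsAlgClosed Ω → IsAlgClosed (acl K S)) ∧
    (IsAlgClosed Ω → ∀ z, z ∈ acl K S ∨ Transcendental (acl K S) z)

/-- **ACLB**: algebraic independence. Hypothesis allowed: ACLA.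
PROOF. (1) `x` is algebraically independent over `K` iff no `x_i` is algebraic over `K(x_j : j ≠ i)`. (Mathlib: `algebraicIndependent_iff..`, `AlgebraicIndependent` and `Transcendental` for `Option`/`insert`, matroid `AlgebraicIndependent.matroid`.) (2) the number of algebraically independent elements in `acl K T` is at most `|T|` (transcendence degree; `T` contains a transcendence basis of `acl K T`). (3) `Sum.elim x y` is independent over `K` iff `x` is and `y` is independent over `K(x)`, equivalently over `acl K (range x)` (algebraic independence passes to algebraic extensions of the ground field). (4) from (3). -/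
def ACLB : Prop :=
  ∀ (K Ω : Type) [Field K] [Field Ω] [Algebra K Ω],
    (∀ (ι : Type) [Finite ι] (x : ι → Ω), AlgebraicIndependent K x ↔
      ∀ i, x i ∉ acl K (x '' {j | j ≠ i})) ∧
    (∀ (ι : Type) [Fintype ι] (x : ι → Ω) (T : Finset Ω), AlgebraicIndependent K x →
      (∀ i, x i ∈ acl K (T : Set Ω)) → Fintype.card ι ≤ T.card) ∧
    (∀ (ι ι' : Type) [Finite ι] [Finite ι'] (x : ι → Ω) (y : ι' → Ω),
      AlgebraicIndependent K (Sum.elim x y) ↔
        AlgebraicIndependent K x ∧ AlgebraicIndependent (acl K (Set.range x)) y) ∧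
    ∀ (ι : Type) [Finite ι] (x : ι → Ω), AlgebraicIndependent K x →
      AlgebraicIndependent (acl K (∅ : Set Ω)) x

/-- **ACLP**: points with coordinates in `acl K S`. Hypotheses allowed: ACLA, SUBF, EDUP.
PROOF. (1) `ψ² = B(x)`, `B` over `K`. (2) `x, ψ` algebraic over `K(x(2^e P))`: EDUP: if `2^e P ≠ 0`: `Φ_e(x) - x(2^e P) Ψ_e(x) = 0`, a monic polynomial of degree `4^e` in `x` (`Φ_e` monic of degree `4^e`, `deg Ψ_e < 4^e`; landed in `NZ1`'s proof); if `2^e P = 0`: `Ψ_e(x) = 0`, `Ψ_e ≠ 0`. (3) the points with coordinates in an intermediate field are a subgroup (SUBF). -/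
def ACLP : Prop :=
  ∀ (K Ω : Type) [Field K] [CharZero K] [Field Ω] [IsAlgClosed Ω] [DecidableEq Ω] [Algebra K Ω]
    (W : Affine K) [W.IsElliptic] (S : Set Ω) (P Q : (WL Ω W).Point) (e : ℕ),
    (xc P ∈ acl K S → IP (acl K S : Set Ω) P) ∧
    (IP (acl K S : Set Ω) ((2 ^ e) • P) → IP (acl K S : Set Ω) P) ∧
    (IP (acl K S : Set Ω) P → IP (acl K S : Set Ω) Q →
      IP (acl K S : Set Ω) (P + Q) ∧ IP (acl K S : Set Ω) (P - Q) ∧
        IP (acl K S : Set Ω) ((2 ^ e) • P))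

/-! ## Degrees of points -/

/-- **ADDG**: `deg x(P ± Q) ≤ 2 deg x(P) + 2 deg x(Q)`. Hypotheses allowed: DEGB, DGF, ELAW, EDUP (landed).
PROOF. `xc 0 = 0` has degree `0`. `P = 0` or `Q = 0` or `P + Q = 0`: clear. Let `x = x(P)`, `y = x(Q)`, `z = x(P + Q)`. If `x ≠ y`: `(x-y)² z² - Θ z + S = 0` with `Θ = 2(x+y)xy + b₂ xy + b₄ (x+y) + b₆`, `S = (xy)² - b₄ xy - b₆ (x+y) - b₈` (`Uh, Th, Sh` with `z = 1`; from ELAW with `e = 0`: `2 U z = T ∓ ψψ'`, `T² - 4US = ψ²ψ'²`). DEGB with `ι = Fin 2`, `N = 2`, the coefficient `(x-y)²` of `z²` is not `0`, so some value `c` gives a non-zero value.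
If `x = y` then `Q = P` (`Q = -P` is excluded): `z = x(2P)`, EDUP: `Φ_1(x) = z Ψ_1(x)`, `Ψ_1(x) = B(x) ≠ 0`: degree `4` in `x`: `dg z ≤ 4 dg x = 2 dg x + 2 dg y`. (`P - Q = P + (-Q)`.) -/
def ADDG : Prop :=
  ∀ (K Ω : Type) [Field K] [CharZero K] [Field Ω] [IsAlgClosed Ω] [DecidableEq Ω] [Algebra K Ω]
    (W : Affine K) [W.IsElliptic] (k : IntermediateField K Ω) (t : Ω), Transcendental k t →
    (∀ z : Ω, IsAlgebraic (IntermediateField.adjoin k {t}) z) → ∀ P Q : (WL Ω W).Point,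
    dg k t (xc (P + Q)) ≤ 2 * dg k t (xc P) + 2 * dg k t (xc Q) ∧
    dg k t (xc (P - Q)) ≤ 2 * dg k t (xc P) + 2 * dg k t (xc Q)

/-- **DUPG**: `deg x(2^e P) ≤ 4^e deg x(P)`. Hypotheses allowed: DEGB, DGF, EDUP (landed).
PROOF. `2^e P = 0`: `xc 0 = 0`. Otherwise EDUP: `Φ_e(x) - z Ψ_e(x) = 0`, `Ψ_e(x) ≠ 0`, `z = x(2^e P)`; `Φ_e, Ψ_e ∈ K[X]` have degree `≤ 4^e`: DEGB with one variable `x`, `R = Φ_e(X) - T Ψ_e(X)`. -/
def DUPG : Prop :=
  ∀ (K Ω : Type) [Field K] [CharZero K] [Field Ω] [IsAlgClosed Ω] [DecidableEq Ω] [Algebra K Ω]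
    (W : Affine K) [W.IsElliptic] (k : IntermediateField K Ω) (t : Ω), Transcendental k t →
    (∀ z : Ω, IsAlgebraic (IntermediateField.adjoin k {t}) z) → ∀ (P : (WL Ω W).Point) (e : ℕ),
    dg k t (xc ((2 ^ e) • P)) ≤ 4 ^ e * dg k t (xc P)

/-- **DLOW**: `4^e deg x(P) ≤ 2 deg x(2^e P - c)`, `c` constant. Hypotheses allowed: DGR, DGF, `Helper60.T3.S_TORS`, `S_SUBF`.
PROOF. `k` is algebraically closed. If `x := x(P)` is algebraic over `k`: `0 ≤ ..`. Otherwise `P ≠ 0`, `x` is transcendental over `k`; `z := x(2^e P - c)`. TORS (`κ := k`): every non-zero `R` over `k` with `R(z, x) = 0` has `degreeOf 1 R ≥ 4^e`. So `z` is transcendental over `k` (otherwise `z ∈ k`, `R = X_0 - z`) and `[k(z, x) : k(z)] ≥ 4^e` (the minimal polynomial of `x` over `k(z)`, denominators cleared, is such an `R`; `x` is algebraic over `k(z)` by exchange because `z` is algebraic over `k(x)`).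
`z ∈ k(x, ψ(P))` (SUBF: `P` and `c` have coordinates in this field), `ψ(P)² = B(x)`: `[k(x, z) : k(x)] ≤ 2`. Let `F := k(t, x, z)`, finite over `k(t)` (hypothesis), `G := k(x, z) ⊆ F`: DGR (1) in `F`: `dg z [F : k(t)] = [F : k(z)] = [F : G][G : k(z)] ≥ 4^e [F : G]`, `dg x [F : k(t)] = [F : k(x)] = [F : G][G : k(x)] ≤ 2 [F : G]` (`[F : G]` finite). (DGR (2) for `F → Ω`.) -/
def DLOW : Prop :=
  ∀ (K Ω : Type) [Field K] [CharZero K] [Field Ω] [IsAlgClosed Ω] [DecidableEq Ω] [Algebra K Ω]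
    (W : Affine K) [W.IsElliptic] (k : IntermediateField K Ω) (t : Ω), IsAlgClosed k →
    Transcendental k t → (∀ z : Ω, IsAlgebraic (IntermediateField.adjoin k {t}) z) →
    ∀ (P c : (WL Ω W).Point) (e : ℕ), IP (k : Set Ω) c →
    4 ^ e * dg k t (xc P) ≤ 2 * dg k t (xc ((2 ^ e) • P - c))

/-! ## Torsion translations -/

/-- **GRID**: a polynomial of small degree does not vanish on the torsion translates. Hypothesis allowed: NZ1 (landed).
PROOF. For every `c ≠ a` let `S_c` := the set of the `x(x_c + t)`, `2^e t = 0`, `x_c + t ≠ 0`. If a finite subset `S_c' ⊆ S_c` containing all of `S_c` had fewer than `4^e` elements then `G := ∏_(s ∈ S_c) (X - s)` would have degree `< 4^e`, and NZ1 with `R := 2^e x_c` gives `P ≠ 0`, `2^e P = 2^e x_c`, `G(x(P)) ≠ 0`, but `t := P - x_c` has `2^e t = 0`, `x(P) ∈ S_c`: contradiction. So `S_c` has a finite subset with `4^e` elements (or is infinite; take any finite subset with `4^e` elements).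 A non-zero polynomial with partial degrees `< 4^e` does not vanish
on the whole product of these sets (`MvPolynomial.eq_zero_of_eval_zero_at_prod_finset`). -/
def GRID : Prop :=
  ∀ (K Ω : Type) [Field K] [CharZero K] [Field Ω] [IsAlgClosed Ω] [DecidableEq Ω] [Algebra K Ω]
    (σ : Type) [Fintype σ] [DecidableEq σ] (W : σ → Affine K), (∀ i, (W i).IsElliptic) →
    ∀ (a : σ) (x : ∀ i, (WL Ω (W i)).Point) (e : ℕ), (∀ c, c ≠ a → 2 • ((2 ^ e) • x c) ≠ 0) →
    ∀ R : MvPolynomial {c : σ // c ≠ a} Ω, R ≠ 0 → (∀ c, degreeOf c R < 4 ^ e) →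
    ∃ t : ∀ i, (WL Ω (W i)).Point, (∀ c, c ≠ a → (2 ^ e) • t c = 0 ∧ x c + t c ≠ 0) ∧
      eval (fun c : {c : σ // c ≠ a} => xc (x c + t c)) R ≠ 0

/-- **NRMP**: a polynomial in the `X_c`, `c ≠ a`, which vanishes whenever `∑ U_b λ_b(X)` vanishes on `g = 0`. No hypotheses.
PROOF. (1) signs: `Φ(X, U) = ∑_b U_b λ_b(X)`, `λ_b ∈ A[X]`. `∏_(ε ∈ {±1}^σ) Φ(X, ε U)` is even in every `U_b`, so it is a polynomial in the `X_b` and the `U_b²`; substituting `U_b² = B_b(X_b)` gives `N1 ∈ A[X]` of degrees `≤ 2^(n+1) (D0 + 3)` with `N1(X) = ∏_ε Φ(X, ε U)` whenever `U_b² = B_b(X_b)` (in every `A`-algebra). (Compare `redV`, `aeval_redV` in `Helper68/VN/GoalsN.lean`, `Pool/Agent/Helper38/VN/NQX.lean`.)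
(2) `R := Res_(X_a)(g, N1) ∈ A[X_c : c ≠ a]`, formal degrees `D0' := degreeOf a g` and `N := ` a bound for the degree of `N1` in `X_a`; degrees `≤ (D0' + N) max(..)` (Sylvester determinant). At a common zero of `g`, `N1` the resultant vanishes (`R = u g + v N1`, `Polynomial.exists_mul_add_mul_eq_C_resultant`, or `RESE` of `Pool/Agent/Helper34/ZH/RESE.lean`). (3) `R ≠ 0`: at the generic values `X_c = Z_c`: `g(Z; X_a)` has leading coefficient `≠ 0` (`g ≠ 0`, `Z` independent)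
and splits in `A₂`; for every root `X_a`, and any square roots `Ψ_b` of `B_b(X_b)`, all signs, `Φ ≠ 0` by hypothesis, so `N1(X) ≠ 0`; the resultant is `lc^N ∏ N1(roots) ≠ 0` (coprime polynomials). If `degreeOf a g = 0`: `R := g` itself works (a non-zero polynomial without `X_a`). -/
def NRMP : Prop :=
  ∀ D0 n : ℕ, ∃ B0 : ℕ, ∀ (A : Type) [Field A] [CharZero A] (σ : Type) [Fintype σ]
    [DecidableEq σ] (W : σ → WeierstrassCurve A) (a : σ) (g : MvPolynomial σ A)
    (lam : σ → MvPolynomial σ A), Fintype.card σ = n + 1 → g ≠ 0 → (∀ i, degreeOf i g ≤ D0) →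
    (∀ b i, degreeOf i (lam b) ≤ D0) →
    (∃ (A₂ : Type) (_ : Field A₂) (_ : IsAlgClosed A₂) (_ : Algebra A A₂)
      (Z : {c : σ // c ≠ a} → A₂), AlgebraicIndependent A Z ∧
      ∀ X Ψ : σ → A₂, (∀ c : {c : σ // c ≠ a}, X c = Z c) →
        (∀ i, Ψ i ^ 2 = Bf ((W i).map (algebraMap A A₂)) (X i)) → aeval X g = 0 →
        ∑ b, Ψ b * aeval X (lam b) ≠ 0) →
    ∃ R : MvPolynomial {c : σ // c ≠ a} A, R ≠ 0 ∧ (∀ c, degreeOf c R ≤ B0) ∧
      ∀ Y U : σ → A, (∀ i, U i ^ 2 = Bf (W i) (Y i)) → eval Y g = 0 →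
        ∑ b, U b * eval Y (lam b) = 0 → eval (fun c : {c : σ // c ≠ a} => Y c) R = 0

/-- **TCH**: choice of a torsion translation. Hypotheses allowed: NRMP, GRID.
PROOF. NRMP with `A := Ω`, the curves `WL Ω (W i)`, `g` over `Ω`, `lam b := C (λ b) * pderiv b g` (over `Ω`). The hypothesis of NRMP: `A₂ :=` an algebraic closure of the field of fractions of `Ω[Z_c : c ≠ a]`; NotFlat with `Ω₁ = Ω`, `Ω₂ = A₂`, `α = λ ≠ 0`. (`g ≠ 0`: otherwise NotFlat fails for `X` = any point and `α ≠ 0`.) `B0` of NRMP, `R`; GRID: `t` with `R(x(x_c + t_c)) ≠ 0`. For `y` as in the statement `Y_b := xc (y b)`, `U_b := ps (y b)`, `U_b² = B_b(Y_b)` (`y b ≠ 0`): if the sum were `0`, `R(Y_c) = 0`. -/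
def TCH : Prop :=
  ∀ D0 n : ℕ, ∃ B0 : ℕ, ∀ (K : Type) [Field K] [CharZero K] (σ : Type) [Fintype σ]
    [DecidableEq σ] (W : σ → Affine K) (a : σ) (g : MvPolynomial σ K),
    Fintype.card σ = n + 1 → (∀ i, (W i).IsElliptic) → (∀ i, degreeOf i g ≤ D0) →
    NotFlat W a g →
    ∀ (Ω : Type) [Field Ω] [IsAlgClosed Ω] [DecidableEq Ω] [Algebra K Ω]
      (x : ∀ i, (WL Ω (W i)).Point) (e : ℕ), (∀ c, c ≠ a → 2 • ((2 ^ e) • x c) ≠ 0) →
      B0 < 4 ^ e → ∀ lam : σ → Ω, lam ≠ 0 →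
      ∃ t : ∀ i, (WL Ω (W i)).Point, (∀ c, c ≠ a → (2 ^ e) • t c = 0 ∧ x c + t c ≠ 0) ∧
        ∀ y : ∀ i, (WL Ω (W i)).Point, (∀ i, y i ≠ 0) → (∀ c, c ≠ a → y c = x c + t c) →
          aeval (fun i => xc (y i)) g = 0 → ∑ b, lam b * nv W g y b ≠ 0

/-- **TAUT**: the translation automorphism. Hypotheses allowed: ACLA, SUBF.
PROOF. It is enough to move ONE coordinate `c` (`t` supported at one `c`), then compose (`Finset.induction` over the set of moved coordinates; `t c` has coordinates in `L`, so it is fixed by the automorphisms: `tp τ (x c + t c) = tp τ (x c) + t c`). ONE coordinate: let `L'' := L(X_b, ψ_b : b ≠ a, c)` (or the relative algebraic closure of `L(X_b : b ≠ a, c)` in `Ω`: then also all points with these coordinates are fixed); `X_c` is transcendental over `L''`, `Ω` is algebraic over `L''(X_c)`; `x' := x c + t c`, `X' := x(x')`: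
`x'` and `x c` have coordinates in each other's fields `L''(x_c)` (SUBF), so `X'` is also transcendental over `L''` and `Ω` is algebraic over `L''(X')`. There is an `L''`-isomorphism `L''(X_c) ≅ L''(X')`, `X_c ↦ X'`, and it extends to an automorphism `τ₀` of `Ω` (`IsAlgClosed.lift`/`IsAlgClosure.equiv`: `Ω` is an algebraic closure of both fields). `τ₀(ψ_c)² = B(X') = ψ'²`, so `τ₀(ψ_c) = ± ψ'`. If the sign is `-`, compose with an automorphism of `Ω` over `L''(X_c)` with `ψ_c ↦ - ψ_c`: it exists because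
`ψ_c ∉ L''(X_c)` (`B(X_c)` is not a square in the rational function field `L''(X_c)`: odd degree `3`), so `ψ_c` and `-ψ_c` are conjugate (same minimal polynomial; the automorphisms of `Ω` over `L''(X_c)` act transitively on the roots, Mathlib: `Normal`/`IsAlgClosed` lifts, `minpoly` roots). The point `(x, y)` is determined by `x, ψ`. -/
def TAUT : Prop :=
  ∀ (K Ω : Type) [Field K] [CharZero K] [Field Ω] [IsAlgClosed Ω] [DecidableEq Ω] [Algebra K Ω]
    (σ : Type) [Fintype σ] [DecidableEq σ] (W : σ → Affine K), (∀ i, (W i).IsElliptic) →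
    ∀ (a : σ) (L : IntermediateField K Ω) (x t : ∀ i, (WL Ω (W i)).Point),
    AlgebraicIndependent L (fun c : {c : σ // c ≠ a} => xc (x c)) →
    (∀ z : Ω, IsAlgebraic (IntermediateField.adjoin L
      (Set.range fun c : {c : σ // c ≠ a} => xc (x c))) z) →
    (∀ c, c ≠ a → IP (L : Set Ω) (t c)) →
    ∃ τ : Ω ≃ₐ[K] Ω, (∀ z ∈ L, τ z = z) ∧ ∀ c, c ≠ a → tp τ (x c) = x c + t c

/-- **SEL**: `n` automorphisms with linearly independent normal vectors. Hypotheses allowed: TCH, TAUT, ACLP, ACLB.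
PROOF. `B0` of TCH. By induction on `r ≤ n`: `r` automorphisms `τ_i` and translations `t_i` such that the `r + 1` vectors `nv(x), nv(τ_i x)` are linearly independent. `r = 0`: `nv(x) ≠ 0` by NotFlat (`Ω₁ := acl K ∅`, ACLB (4) (from the independence over `L ⊇ K`); in fact a vector `α = e_a` gives `ψ_a ∂_a g ≠ 0`). STEP `r < n`: `r + 1 < n + 1 = |σ|` vectors: there is `λ ≠ 0` in `Ω^σ` orthogonal to all of them (linear algebra). TCH: `t`; `2 (2^e x_c) ≠ 0` because `X_c` is transcendental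
over `K` (ACLP: a torsion point has coordinates in `acl K ∅`). The coordinates of `t c` are in `acl K ∅ ⊆ L` (ACLP (2): `2^e t_c = 0`; `L` is of the form `acl K SL`). TAUT: `τ`. `y := τ x`: `y_i ≠ 0`, `y_c = x_c + t_c`, `g(Y) = τ(g(X)) = 0` (`xc (tp τ P) = τ (xc P)`, `ps (tp τ P) = τ (ps P)`). So `λ · nv(y) ≠ 0`, and `nv(y)` is not in the span of the others. -/
def SEL : Prop :=
  ∀ D0 n : ℕ, ∃ B0 : ℕ, ∀ (K : Type) [Field K] [CharZero K] (σ : Type) [Fintype σ]
    [DecidableEq σ] (W : σ → Affine K) (a : σ) (g : MvPolynomial σ K),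
    Fintype.card σ = n + 1 → (∀ i, (W i).IsElliptic) → (∀ i, degreeOf i g ≤ D0) →
    NotFlat W a g →
    ∀ (Ω : Type) [Field Ω] [IsAlgClosed Ω] [DecidableEq Ω] [Algebra K Ω]
      (x : ∀ i, (WL Ω (W i)).Point) (e : ℕ) (SL : Set Ω), (∀ i, x i ≠ 0) →
      aeval (fun i => xc (x i)) g = 0 →
      AlgebraicIndependent (acl K SL) (fun c : {c : σ // c ≠ a} => xc (x c)) →
      (∀ z : Ω, IsAlgebraic (IntermediateField.adjoin (acl K SL)
        (Set.range fun c : {c : σ // c ≠ a} => xc (x c))) z) → B0 < 4 ^ e →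
      ∃ (τ : Fin n → (Ω ≃ₐ[K] Ω)) (t : Fin n → ∀ i, (WL Ω (W i)).Point),
        (∀ i, ∀ z ∈ acl K SL, τ i z = z) ∧ (∀ i c, c ≠ a → (2 ^ e) • t i c = 0) ∧
        (∀ i c, c ≠ a → tp (τ i) (x c) = x c + t i c) ∧
        LinearIndependent Ω (fun o : Option (Fin n) =>
          o.elim (nv W g x) (fun i => nv W g (fun b => tp (τ i) (x b))))

/-! ## Derivations and relations -/

/-- **GEN**: everything is algebraic over the `x(υ_i)`. Hypotheses allowed: ACLA, ACLP, `Helper60.T3.S_DADD`, `S_DEX`.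
PROOF. Suppose `X_(b0) := x(x_(b0)) ∉ k₁ := acl K (range υ)` (algebraically closed), so it is transcendental over `k₁`. DEX (`κ := k₁`, `v = 1`): a derivation `D` over `k₁` with `D X_(b0) = 1`. `D` kills the coordinates in `acl K ∅ ⊆ k₁` and the `x(y_i a - x a)`. `z' := zd D` is additive (DADD, for `D` as a derivation over `K`), `z'(P) = 0` if `xc P ∈ k₁`. `ω_b := z'(x_b)`. (N) `D x(P) = ψ(P) z'(P)` for `P ≠ 0` (`ψ(P) ≠ 0`: definition; `ψ(P) = 0`: `B(x(P)) = 0`, `x(P) ∈ acl K ∅`, `D x(P) = 0`).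
So `0 = D(g(X)) = ∑_b ∂_b g(X) D X_b = ∑_b nv(x)_b ω_b`. For `y = y_i`: `z'(y_c) = ω_c + z'(t_c) = ω_c` (`c ≠ a`), `z'(y_a) = z'(x_a) + z'(y_a - x_a) = ω_a`; `0 = D(g(Y)) = ∑_b nv(y)_b ω_b`. The `n + 1 = |σ|` vectors `nv(x), nv(y_i)` are linearly independent, so they span `Ω^σ` and `ω = 0`; by (N) `D X_(b0) = 0`, contradiction. -/
def GEN : Prop :=
  ∀ (K Ω : Type) [Field K] [CharZero K] [Field Ω] [IsAlgClosed Ω] [DecidableEq Ω] [Algebra K Ω]
    (σ : Type) [Fintype σ] [DecidableEq σ] (W : σ → Affine K), (∀ i, (W i).IsElliptic) →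
    ∀ (n : ℕ) (a : σ) (g : MvPolynomial σ K) (x : ∀ i, (WL Ω (W i)).Point)
      (y t : Fin n → ∀ i, (WL Ω (W i)).Point), Fintype.card σ = n + 1 → (∀ i, x i ≠ 0) →
      (∀ i b, y i b ≠ 0) → (∀ i c, c ≠ a → IP (acl K (∅ : Set Ω) : Set Ω) (t i c)) →
      (∀ i c, c ≠ a → y i c = x c + t i c) → aeval (fun b => xc (x b)) g = 0 →
      (∀ i, aeval (fun b => xc (y i b)) g = 0) →
      LinearIndependent Ω (fun o : Option (Fin n) => o.elim (nv W g x) (fun i => nv W g (y i))) →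
      ∀ b, xc (x b) ∈ acl K (Set.range fun i => xc (y i a - x a))

/-- **ELMW**: elimination by a dimension count. No hypotheses. (For `|ι| = 1`, `s = 2` this is `Helper60.T3.S_ELM`, read its docstring.)
PROOF. `z` is algebraically independent over `κ`, `w = |ι|`. For every `i < s`: `P_i(f_i, z) = 0`, `P_i ≠ 0` of degrees `≤ d`; `P_i(T, z) ≠ 0` because `z` is independent; let `u_i` be its degree in `T` (`1 ≤ u_i ≤ d`), `l_i := ` its leading coefficient, a polynomial in `z` of degrees `≤ d`, `≠ 0`. Then `l_i^m f_i^j`, `j ≤ m`, is a combination of `1, f_i, .., f_i^(u_i - 1)` with coefficients in `κ[z]` of degrees `≤ m d`. Let `t` (`1 ≤ t ≤ D`) be the degree of `G(f, Y)` in `Y`, `g0 ≠ 0` its leading coefficient, a polynomial in the `f_i` of degrees `≤ D`: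
`g0^A y^j`, `j ≤ A`, is a combination of `1, .., y^(t-1)` with coefficients polynomials in the `f_i` of degrees `≤ A D`. So the `(A+1)(B+1)^w` elements `g0^A (∏ l_i)^(A D) y^j z^γ`, `j ≤ A`, `γ ≤ B`, are in the span of the `≤ t d^s (B + s d A D + 1)^w` elements `y^l ∏ f_i^(j_i) z^δ`, `l < t`, `j_i < u_i`, `δ ≤ B + s d A D`. With `A := 2^(w+1) D d^s` and `B := s d A D` (so `B + s d A D + 1 ≤ 2 (B + 1)`): `(A+1)(B+1)^w > D d^s 2^w (B+1)^w`: a non-trivial relation
`∑ r_(j γ) y^j z^γ = 0` (divide by the non-zero common factor). `d' := max A B`. -/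
def ELMW : Prop :=
  ∀ w s d D : ℕ, ∃ d' : ℕ, ∀ (κ L ι : Type) [Field κ] [Field L] [Algebra κ L] [Fintype ι]
    (z : ι → L) (f : Fin s → L) (y : L) (G : MvPolynomial (Option (Fin s)) κ),
    Fintype.card ι = w → AlgebraicIndependent κ z → (∀ i, Rw κ z (f i) d) →
    (∀ o, degreeOf o G ≤ D) → aeval (fun o : Option (Fin s) => o.elim y f) G = 0 →
    (∃ c : L, aeval (fun o : Option (Fin s) => o.elim c f) G ≠ 0) → Rw κ z y d'

/-- **JREL**: `w + 1` algebraic functions of `w` variables. No hypotheses.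
PROOF. As in ELMW: `P_i(h_i, z) = 0`, `l_i`, `u_i`. The `(A+1)^(w+1)` elements `(∏ l_i)^A ∏ h_i^(j_i)`, `j_i ≤ A`, are in the span of the `≤ d^(w+1) ((w+1) d A + 1)^w` elements `∏ h_i^(j_i) z^δ`, `j_i < u_i`, `δ ≤ (w+1) d A`. For `A := d^(w+1) ((w+1) d + 1)^w` the first number is larger (`((w+1) d A + 1)^w ≤ (((w+1) d + 1)(A + 1))^w`). -/
def JREL : Prop :=
  ∀ w d : ℕ, ∃ A : ℕ, ∀ (κ L ι : Type) [Field κ] [Field L] [Algebra κ L] [Fintype ι]
    (z : ι → L) (h : Option (Fin w) → L), Fintype.card ι = w → AlgebraicIndependent κ z →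
    (∀ o, Rw κ z (h o) d) → ∃ R : MvPolynomial (Option (Fin w)) κ, R ≠ 0 ∧
      (∀ o, degreeOf o R ≤ A) ∧ aeval h R = 0

/-- **RELB**: a relation of bounded degree between `X_b` and the `x(υ_i)`. Hypotheses allowed: ELMW, JREL, ACLA, ACLB, ACLP, ELAW, EDUP.
PROOF. `κ := acl K ∅` (field of the coordinates of the `t i c`), `z := (X_c)_(c ≠ a)`, independent over `κ` (ACLB (4)), `w = n`. Chain of elements with `Rw κ z · d`, `d` depending on `D0, n` only (apply ELMW several times; every relation has partial degrees `≤ max D0 8`): (1) `z_c`: `X_none - X_(some c)`. (2) `ψ(x_c)`, `c ≠ a`: `T² = B_c(X_c)`. (3) `X_a`: `g(X_c; T) = 0`, not identically `0` in `T` (`g ≠ 0`, `X_c` independent over `K`). (4) `ψ(x_a)`. For every `i`: (5) `Y_c := x(y_i c) = x(x_c + t_c)`, `c ≠ a`: if `t_c = 0`: `Y_c = X_c`; otherwise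
`2 (X_c - ξ)² Y_c = T(X_c, ξ) - ψ(x_c) ψ(t_c)` (ELAW with `e = 0`, constants in `κ`), `X_c ≠ ξ := x(t_c)` because `X_c` is not in `κ`. (6) `ψ(y_i c)`: `T² = B_c(Y_c)`. (7) `Y_a`: `g(Y_c; T) = 0`; the `Y_c` are independent over `K` (`X_c` is algebraic over `κ(Y_c)`, ACLP/ACLB (1), (2): `X_c` and `Y_c` generate the same algebraically closed fields), so it is not identically `0`. (8) `ψ(y_i a)`. (9) `Υ_i := x(y_i a - x_a)`: if `x(y_i a) ≠ x(x_a)`: `2 (Y_a - X_a)² Υ = T(Y_a, X_a) + ψ(y_i a) ψ(x_a)`; otherwise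
`y_i a = ± x_a`: `υ = 0`, `Υ = 0`, or `υ = 2 y_i a`, `x(2P) B(x(P)) = A(x(P))` (EDUP, `e = 1`) with `B(x(P)) ≠ 0` if `2 P ≠ 0` (`Υ = 0` if `2P = 0`). JREL for `h none := X_b`, `h (some i) := Υ_i`. -/
def RELB : Prop :=
  ∀ D0 n : ℕ, ∃ S0 : ℕ, ∀ (K Ω : Type) [Field K] [CharZero K] [Field Ω] [IsAlgClosed Ω]
    [DecidableEq Ω] [Algebra K Ω] (σ : Type) [Fintype σ] [DecidableEq σ] (W : σ → Affine K),
    (∀ i, (W i).IsElliptic) → ∀ (a : σ) (g : MvPolynomial σ K)
      (x : ∀ i, (WL Ω (W i)).Point) (y t : Fin n → ∀ i, (WL Ω (W i)).Point),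
      Fintype.card σ = n + 1 → g ≠ 0 → (∀ i, degreeOf i g ≤ D0) → (∀ i, x i ≠ 0) →
      (∀ i b, y i b ≠ 0) → (∀ i c, c ≠ a → IP (acl K (∅ : Set Ω) : Set Ω) (t i c)) →
      (∀ i c, c ≠ a → y i c = x c + t i c) → aeval (fun b => xc (x b)) g = 0 →
      (∀ i, aeval (fun b => xc (y i b)) g = 0) →
      AlgebraicIndependent K (fun c : {c : σ // c ≠ a} => xc (x c)) → ∀ b, b ≠ a →
      ∃ R : MvPolynomial (Option (Fin n)) (acl K (∅ : Set Ω)), R ≠ 0 ∧
        (∀ o, degreeOf o R ≤ S0) ∧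
        aeval (fun o : Option (Fin n) => o.elim (xc (x b)) (fun i => xc (y i a - x a))) R = 0

/-! ## The degree of `x(w_a)` -/

/-- **HLEM**. Hypotheses allowed: SEL, GEN, RELB, DEGB, DGR, DGF, ADDG, DUPG, DLOW, ACLA, ACLB, ACLP.
PROOF. `C := max (B0 + 1) (16 n S0 + 1)`. `L := acl K SL`, `k := acl K (S ∪ {x(w_c) : c ≠ a})`, `w_b := 2^e x_b - x0_b`. SEL: `τ_i, t_i`; `y_i := τ_i x`, `t_i c` has coordinates in `acl K ∅` (ACLP (2)). `w_c ∈ k` for `c ≠ a` (ACLP (1)). `τ := τ_i` fixes `L` and `w_c`: `tp τ (w_c) = 2^e (x_c + t_c) - x0_c = w_c` (`x0_c` has coordinates in `L`), so it fixes `S ∪ {x(w_c)}` and maps `k` onto `k` (elements algebraic over a fixed field), `τ t = t`: DGR (2) with `ψ := τ` restricted to `k`: `dg k t (τ f) = dg k t f`. `υ_i := τ_i(x_a) - x_a`, `2^e υ_i = τ_i(w_a) - w_a`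
(`τ_i(x0_a) = x0_a`). ADDG: `dg x(2^e υ_i) ≤ 2 dg x(τ_i w_a) + 2 dg x(w_a) = 4 dg x(w_a)`, DLOW with `c = 0`: `4^e dg x(υ_i) ≤ 2 dg x(2^e υ_i) ≤ 8 dg x(w_a)`. GEN: all `X_b ∈ acl K (range Υ)`, `Υ_i = x(υ_i)`; the `n` elements `X_c`, `c ≠ a`, are independent over `K`, so the `n` elements `Υ_i` are independent over `K` (ACLB (1), (2)) and over `acl K ∅` (ACLB (4)). RELB: `R(X_c, Υ) = 0`, `R ≠ 0`, so `R(T, Υ)` is not the zero polynomial, some value is `≠ 0` (`Ω` infinite). DEGB over `k ⊇ acl K ∅` (`R` mapped to `k`):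
`dg X_c ≤ S0 ∑_i dg Υ_i ≤ 8 n S0 4^(-e) dg x(w_a)`. Finally `x0_c = 2^e x_c - w_c`: ADDG, DUPG: `dg x(x0_c) ≤ 2 · 4^e dg X_c + 0` (`dg x(w_c) = 0`, DGF). So `dg x(x0_c) ≤ 16 n S0 dg x(w_a)`. (For `DLOW` `k` is algebraically closed: ACLA.) -/
def HLEM : Prop :=
  ∀ D0 n : ℕ, ∃ C : ℕ, 1 ≤ C ∧ ∀ (K : Type) [Field K] [CharZero K] (σ : Type) [Fintype σ]
    [DecidableEq σ] (W : σ → Affine K) (a : σ) (g : MvPolynomial σ K),
    Fintype.card σ = n + 1 → (∀ i, (W i).IsElliptic) → (∀ i, degreeOf i g ≤ D0) →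
    NotFlat W a g →
    ∀ (Ω : Type) [Field Ω] [IsAlgClosed Ω] [DecidableEq Ω] [Algebra K Ω]
      (x x0 : ∀ i, (WL Ω (W i)).Point) (e : ℕ) (SL S : Set Ω) (t : Ω), C ≤ 4 ^ e →
      (∀ i, x i ≠ 0) → aeval (fun i => xc (x i)) g = 0 →
      (∀ i, IP (acl K SL : Set Ω) (x0 i)) → S ⊆ (acl K SL : Set Ω) → t ∈ acl K SL →
      AlgebraicIndependent (acl K SL) (fun c : {c : σ // c ≠ a} => xc (x c)) →
      (∀ z : Ω, IsAlgebraic (IntermediateField.adjoin (acl K SL)
        (Set.range fun c : {c : σ // c ≠ a} => xc (x c))) z) →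
      ∀ k : IntermediateField K Ω,
        k = acl K (S ∪ Set.range fun c : {c : σ // c ≠ a} => xc ((2 ^ e) • x c - x0 c)) →
        Transcendental k t → (∀ z : Ω, IsAlgebraic (IntermediateField.adjoin k {t}) z) →
        ∀ c, c ≠ a → dg k t (xc (x0 c)) ≤ C * dg k t (xc ((2 ^ e) • x a - x0 a))

end

end Pool.Agent.Helper92.TN
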