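import Pool.Agent.Helper92.TN.GoalsH
import Pool.Agent.Helper42.TN.Defs

/-!
# Project TN (MP_a41896_nt), IND, part F: pairwise non-isogenous factors have no flat direction
-/

set_option autoImplicit false

open MvPolynomial

namespace Pool.Agent.Helper92.TN

open WeierstrassCurve
open Pool.Agent.Helper29.BL Pool.Agent.Helper92.Ru Pool.Agent.Helper42.SG
open Pool.Agent.Helper60.T3 (WL IP zd)
open Pool.Agent.Helper42.TN (NonIsog)

noncomputable section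

/-- **GENI**: the generic point over an extension. Hypotheses allowed: ACLA, ACLB. (Compare lemma `gen` in `Pool/Agent/Helper15/T3/SPC.lean`.)
PROOF. (1) `X` is generic over `K`: `(X_c)_(c ≠ a)` independent over `K`, `g` irreducible of positive degree in `X_a`: every `p ∈ K[X]` with `p(X) = 0` is divisible by `g` (Gauss; `gen`). (2) `∂_b g ≠ 0` has smaller degree in `X_b`, so it is not divisible by `g`: `∂_b g(X) ≠ 0`. (3) `(X_c)_(c ≠ b)` is independent over `Ω₁`: clear for `b = a`. Let `b ≠ a`; if not, then `X_a ∈ acl Ω₁ (X_c : c ≠ a, b)` (the `X_c`, `c ≠ a, b` are independent; ACLB (1)). `X_a ∈ acl K (X_c : c ≠ a)` (`g(X_c; T) ≠ 0`).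
If `X_a ∉ acl K (X_c : c ≠ a, b)`, exchange gives `X_b ∈ acl K (X_a, X_c : c ≠ a, b) ⊆ acl Ω₁ (X_c : c ≠ a, b)`: contradiction to the independence over `Ω₁`. So `X_a ∈ acl K (X_c : c ≠ a, b)`, there is `p ≠ 0` over `K` without `X_b` with `p(X) = 0`; `g ∣ p` contradicts `degreeOf b g ≠ 0`. -/
def GENI : Prop :=
  ∀ (K Ω₁ Ω₂ σ : Type) [Field K] [CharZero K] [Field Ω₁] [Field Ω₂] [Algebra K Ω₁]
    [Algebra Ω₁ Ω₂] [Algebra K Ω₂] [IsScalarTower K Ω₁ Ω₂] [Fintype σ] [DecidableEq σ]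
    (a : σ) (g : MvPolynomial σ K) (X : σ → Ω₂), Irreducible g → (∀ i, degreeOf i g ≠ 0) →
    aeval X g = 0 → AlgebraicIndependent Ω₁ (fun i : {i : σ // i ≠ a} => X i) → ∀ b,
    AlgebraicIndependent Ω₁ (fun i : {i : σ // i ≠ b} => X i) ∧ aeval X (pderiv b g) ≠ 0 ∧
      X b ∈ acl Ω₁ (Set.range fun i : {i : σ // i ≠ b} => X i)

/-- **DAL**: the derivation in a flat direction. Hypotheses allowed: GENI, `Helper92.UQ.DERF`, `Helper60.T3.S_DADD`.
PROOF. Extend `(X_c)_(c ≠ a)` to a transcendence basis of `Ω₂` over `Ω₁`; DERF: `D X_c = α_c ψ_c`. `0 = D(g(X)) = ∑_b ∂_b g(X) D X_b` and `∑_b α_b ψ_b ∂_b g(X) = 0` give `∂_a g(X) (D X_a - α_a ψ_a) = 0`, `∂_a g(X) ≠ 0` (GENI). `ψ_b ≠ 0` because `X_b` is transcendental over `K` (independence, GENI). -/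
def DAL : Prop :=
  ∀ (K Ω₁ Ω₂ σ : Type) [Field K] [CharZero K] [Field Ω₁] [Field Ω₂] [Algebra K Ω₁]
    [Algebra Ω₁ Ω₂] [Algebra K Ω₂] [IsScalarTower K Ω₁ Ω₂] [DecidableEq Ω₂] [Fintype σ]
    [DecidableEq σ] (W : σ → Affine K) (a : σ) (g : MvPolynomial σ K)
    (x : ∀ i, (WL Ω₂ (W i)).Point) (α : σ → Ω₁), (∀ i, (W i).IsElliptic) →
    Irreducible g → (∀ i, degreeOf i g ≠ 0) → (∀ i, x i ≠ 0) →
    aeval (fun i => xc (x i)) g = 0 →
    AlgebraicIndependent Ω₁ (fun i : {i : σ // i ≠ a} => xc (x i)) →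
    ∑ b, algebraMap Ω₁ Ω₂ (α b) * nv W g x b = 0 →
    ∃ D : Derivation Ω₁ Ω₂ Ω₂, ∀ b, zd D (x b) = algebraMap Ω₁ Ω₂ (α b) ∧
      D (xc (x b)) = ps (x b) * algebraMap Ω₁ Ω₂ (α b)

/-- **TRC**: the trace of a point. Hypotheses allowed: `Helper60.T3.S_DADD`, `S_SUBF`.
PROOF. Let `N` be the normal closure in `Ω₂` of the field `F(xc P, ps P)` over `F` (finite, Galois in characteristic `0`; `Ω₂` algebraically closed), `G = Gal(N/F)`, `r = |G|`. `S := ∑_(s ∈ G) s(P)`, a point of `W` over `N` (as a point over `Ω₂`; `Affine.Point.map`), fixed by `G`, so its coordinates are in `F`: `IP F S`. `D` maps `F` to `F` and so `N` to `N` (separable algebraic: `D z` is a rational function of `z` and elements of `F`), and `s ∘ D ∘ s⁻¹ - D` is a derivation of `N` which vanishes on `F`, so it is `0`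
(`N/F` algebraic, characteristic `0`): `D s(z) = s(D z)` for `z ∈ N`. `z'(s P) = D x(s P)/ψ(s P) = s(D x(P)/ψ(P)) = s(α) = α` (`α ∈ F`). `z'(S) = r α` by DADD. -/
def TRC : Prop :=
  ∀ (K Ω : Type) [Field K] [CharZero K] [Field Ω] [IsAlgClosed Ω] [DecidableEq Ω] [Algebra K Ω]
    (W : Affine K) [W.IsElliptic] (F : IntermediateField K Ω) (D : Derivation K Ω Ω)
    (P : (WL Ω W).Point), (∀ z ∈ F, D z ∈ F) → P ≠ 0 → IsAlgebraic F (xc P) →
    zd D P ∈ F → ∃ (r : ℕ) (S : (WL Ω W).Point), r ≠ 0 ∧ IP (F : Set Ω) S ∧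
      zd D S = r * zd D P

/-- **NISO**: points of `W` over the function field of a product of curves not isogenous to `W` are constant. Hypotheses allowed: ACLA, ACLB.
PROOF. Let `S` be as in the statement, `S ≠ 0`, `(x', y')` its coordinates (`2 y' = ps S - a₁ x' - a₃`). For `b ∈ τ` let `Ω := acl Ω₁ (X_c : c ∈ τ, c ≠ b)`, algebraically closed; `X_b` is transcendental over `Ω` (ACLB), `ψ_c ∈ Ω` for `c ≠ b`; `x', y' ∈ Ω(x_b, y_b)`. NonIsog (with `F := Ω₂`): `x' ∈ Ω = acl Ω₁ (X_c : c ≠ b)`, for every `b`. INTERSECTION: if `x' ∉ Ω₁` (`Ω₁` algebraically closed) let `T ⊆ τ` be minimal with `x' ∈ acl Ω₁ (X_c : c ∈ T)`; `T ≠ ∅`, `b ∈ T`: `x' ∉ acl Ω₁ (X_c : c ∈ T - b)`, so by exchange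
`X_b ∈ acl Ω₁ (x', X_c : c ∈ T - b) ⊆ acl Ω₁ (X_c : c ≠ b)`: contradiction to the independence. If `τ` is empty the field is `Ω₁` itself. -/
def NISO : Prop :=
  ∀ (K Ω₁ Ω₂ : Type) [Field K] [CharZero K] [Field Ω₁] [IsAlgClosed Ω₁] [Field Ω₂]
    [IsAlgClosed Ω₂] [DecidableEq Ω₂] [Algebra K Ω₁] [Algebra Ω₁ Ω₂] [Algebra K Ω₂]
    [IsScalarTower K Ω₁ Ω₂] (τ : Type) [Fintype τ] [DecidableEq τ] (W : τ → Affine K)
    (W' : Affine K), (∀ i, (W i).IsElliptic) → W'.IsElliptic → (∀ i, NonIsog (W i) W') →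
    ∀ (x : ∀ i, (WL Ω₂ (W i)).Point) (S : (WL Ω₂ W').Point), (∀ i, x i ≠ 0) →
      AlgebraicIndependent Ω₁ (fun i => xc (x i)) →
      IP (IntermediateField.adjoin Ω₁
        (Set.range (fun i => xc (x i)) ∪ Set.range (fun i => ps (x i))) : Set Ω₂) S →
      xc S ∈ Set.range (algebraMap Ω₁ Ω₂)

/-- **NFL**: pairwise non-isogenous factors have no flat direction. Hypotheses allowed: GENI, DAL, TRC, NISO.
PROOF. Given `Ω₁, Ω₂, X, Ψ, α`; enlarge `Ω₂` to its algebraic closure; `x_i` := the points with `x = X_i`, `ψ = Ψ_i` (`IsElliptic`: every `(x, y)` on the curve is nonsingular). DAL: `D`. Let `b* ∈ σ`; show `α_(b*) = 0`. GENI: `(X_c)_(c ≠ b*)` is independent over `Ω₁`, `X_(b*)` algebraic over it. `F := Ω₁(X_c, ψ_c : c ≠ b*)`: `D` maps `F` to `F` (`D X_c = α_c ψ_c`, `2 ψ_c D ψ_c = B_c'(X_c) D X_c`, so `D ψ_c = α_c B_c'(X_c)/2`). TRC with `P = x_(b*)` (as a `K`-derivation, `F.restrictScalars K`): `r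 ≠ 0`, `S`,
`z'(S) = r α_(b*)`. NISO: `xc S ∈ Ω₁`, so `D (xc S) = 0`, `z'(S) = 0`. Characteristic `0`: `α_(b*) = 0`. -/
def NFL : Prop :=
  ∀ (K σ : Type) [Field K] [CharZero K] [Fintype σ] [DecidableEq σ] (W : σ → Affine K),
    (∀ i, (W i).IsElliptic) → (∀ i j, i ≠ j → NonIsog (W i) (W j)) →
    ∀ (a : σ) (g : MvPolynomial σ K), Irreducible g → (∀ i, degreeOf i g ≠ 0) → NotFlat W a g

end

end Pool.Agent.Helper92.TN
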