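import Pool.Agent.Helper92.TN.GoalsW
import Pool.Agent.Helper92.TN.NFL
import Pool.Agent.Helper42.TN.DefsF

/-!
# Project TN (MP_a41896_nt), IND: the assemblies INDP, INDQ, S_INDN
-/

set_option autoImplicit false

open MvPolynomial

namespace Pool.Agent.Helper92.TN

open WeierstrassCurve
open Pool.Agent.Helper29.BL Pool.Agent.Helper92.Ru Pool.Agent.Helper42.SG
open Pool.Agent.Helper60.T3 (WL IP zd)
open Pool.Agent.Helper42.TN (SupN S_INDN)
open Pool.Agent.Helper68.VN (Ix P0B mapS OnB)

/-- the monomials in algebraically independent elements are linearly independent over the ground field -/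
theorem lim_base {K Ω : Type} [Field K] [Field Ω] [Algebra K Ω] {ι : Type} [Fintype ι]
    [DecidableEq ι] (x : ι → Ω) (hx : AlgebraicIndependent K x) (N : ι → ℕ) :
    LIm (IntermediateField.adjoin K (∅ : Set Ω) : Set Ω) x N := by
  intro c hc hs l hl
  have h1 : ∀ l, ∃ b : K, algebraMap K Ω b = c l := by
    intro l
    have := hc l
    rw [IntermediateField.adjoin_empty] at this
    exact IntermediateField.mem_bot.1 this
  choose b hb using h1
  set P : MvPolynomial ι K := ∑ l ∈ Fintype.piFinset (fun i => Finset.range (N i + 1)),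
    monomial (Finsupp.equivFunOnFinite.symm l) (b l) with hP
  have hP0 : aeval x P = 0 := by
    rw [hP, map_sum, ← hs]
    refine Finset.sum_congr rfl fun l _ => ?_
    rw [aeval_monomial, hb, Finsupp.prod_fintype _ _ (fun i => pow_zero _)]
    rfl
  have hP1 : P = 0 := by
    have h2 := (injective_iff_map_eq_zero (aeval x : MvPolynomial ι K →ₐ[K] Ω)).1 hx
    exact h2 P hP0
  have h3 : coeff (Finsupp.equivFunOnFinite.symm l) P = b l := by
    rw [hP, coeff_sum, Finset.sum_eq_single l]
    · rw [coeff_monomial, if_pos rfl]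
    · intro l' _ hne
      rw [coeff_monomial, if_neg]
      intro h
      exact hne (Finsupp.equivFunOnFinite.symm.injective h)
    · intro h
      exact absurd hl h
  rw [hP1, coeff_zero] at h3
  rw [← hb l, ← h3, map_zero]

theorem tw_empty {K : Type} [Field K] {σ : Type} {Ω : Type} [Field Ω] [Algebra K Ω]
    [DecidableEq Ω] [Fintype σ] [DecidableEq σ] (W : σ → Affine K) {n : ℕ} (a : σ)
    (g : Fin n → MvPolynomial σ K) (g0 : MvPolynomial σ K)
    (x : Fin n → ∀ i, (WL Ω (W i)).Point) (x0 : ∀ i, (WL Ω (W i)).Point) (e N : Fin n → ℕ)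
    (h : TD W a g g0 x x0) : TW W a x x0 e N ∅ := by
  refine ⟨?_, ?_⟩
  · rw [Finset.coe_empty, Set.image_empty]
    exact lim_base _ (h.ind.comp Sum.inl Sum.inl_injective) _
  · haveI : IsEmpty {h : Fin n × σ // h ∈ (∅ : Finset (Fin n × σ))} :=
      ⟨fun h => absurd h.2 (Finset.notMem_empty _)⟩
    rw [algebraicIndependent_empty_type_iff]
    exact (algebraMap K Ω).injective

theorem indp (hE : EASYS) (hH : HARDS) (hD : NDGP) (hZ : NZPP) : INDP := by
  intro D0 n
  obtain ⟨h0, hh0, hH⟩ := hH D0 n
  refine ⟨h0, by omega, ?_⟩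
  intro K _ _ σ _ _ W hW a g g0 hdeg hnf M e c he hc hs Ω _ _ _ _ x x0 hT
  set N : Fin n → ℕ := fun j => (4 ^ e j - 1) / h0 with hN
  have hpos : ∀ j, 0 < 4 ^ e j := fun j => by positivity
  have hN1 : ∀ j, N j * h0 < 4 ^ e j := by
    intro j
    have h1 : N j * h0 ≤ 4 ^ e j - 1 := Nat.div_mul_le_self _ _
    have h2 := hpos j
    omega
  have hN2 : ∀ j l, l * h0 < 4 ^ e j → l ≤ N j := by
    intro j l hl
    rw [hN]
    rw [Nat.le_div_iff_mul_le (by omega)]
    have h2 := hpos j
    omega
  have key : ∀ j : ℕ, j ≤ n → TW W a x x0 e N (Finset.univ.filter fun h => h.1.val < j) := by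
    intro j
    induction j with
    | zero =>
      intro _
      have : (Finset.univ.filter fun h : Fin n × σ => h.1.val < 0) = ∅ := by
        ext h
        simp
      rw [this]
      exact tw_empty W a g g0 x x0 e N hT
    | succ j ih =>
      intro hj
      have ih := ih (by omega)
      set jj : Fin n := ⟨j, by omega⟩ with hjj
      have step : ∀ T : Finset σ, a ∉ T →
          TW W a x x0 e N ((Finset.univ.filter fun h : Fin n × σ => h.1.val < j) ∪
            T.image (fun i => (jj, i))) := by
        intro T
        induction T using Finset.induction_on with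
        | empty =>
          intro _
          rw [Finset.image_empty, Finset.union_empty]
          exact ih
        | insert i T hi iT =>
          intro ha
          rw [Finset.mem_insert, not_or] at ha
          rw [Finset.image_insert, Finset.union_insert]
          refine hE K σ W hW n a g g0 Ω x x0 e N h0 hT hh0 hN1 jj i _ (Ne.symm ha.1) ?_
            (iT ha.2)
          intro h hh h1
          rw [Finset.mem_union, Finset.mem_filter, Finset.mem_image] at hh
          rcases hh with hh | ⟨i', hi', rfl⟩
          · exfalso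
            have h2 := hh.2
            rw [h1, hjj] at h2
            simp at h2
          · exact ⟨fun h => ha.2 (h ▸ hi'), fun h => hi (h ▸ hi')⟩
      have h1 := step (Finset.univ.erase a) (Finset.notMem_erase a _)
      have h2 := hH K σ W hW a g g0 hdeg hnf Ω x x0 e N hT he hN1 jj _ ?_ h1
      · have h3 : insert (jj, a) ((Finset.univ.filter fun h : Fin n × σ => h.1.val < j) ∪
            (Finset.univ.erase a).image (fun i => (jj, i))) =
            Finset.univ.filter fun h : Fin n × σ => h.1.val < j + 1 := by
          ext ⟨j', i'⟩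
          simp only [Finset.mem_insert, Finset.mem_union, Finset.mem_filter, Finset.mem_univ,
            true_and, Finset.mem_image, Finset.mem_erase, ne_eq, and_true, Prod.mk.injEq]
          constructor
          · rintro (⟨h, -⟩ | h | ⟨i, -, h, -⟩)
            · rw [h, hjj]
              simp
            · omega
            · rw [← h, hjj]
              simp
          · intro h
            by_cases h4 : j'.val < j
            · exact Or.inr (Or.inl h4)
            · have h5 : j' = jj := by
                ext
                rw [hjj]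
                simp only
                omega
              by_cases h6 : i' = a
              · exact Or.inl ⟨h5, h6⟩
              · exact Or.inr (Or.inr ⟨i', h6, h5.symm, rfl⟩)
        rw [← h3]
        exact h2
      · rintro ⟨j', i'⟩
        simp only [Finset.mem_union, Finset.mem_filter, Finset.mem_univ,
          true_and, Finset.mem_image, Finset.mem_erase, ne_eq, and_true, Prod.mk.injEq]
        constructor
        · rintro (h | ⟨i, h1, h2, h3⟩)
          · left
            rw [Fin.lt_def, hjj]
            exact h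
          · right
            exact ⟨h2.symm, h3 ▸ h1⟩
        · rintro (h | ⟨h1, h2⟩)
          · left
            rw [Fin.lt_def, hjj] at h
            exact h
          · right
            exact ⟨i', h2, h1.symm, rfl⟩
  have hun : (Finset.univ.filter fun h : Fin n × σ => h.1.val < n) = Finset.univ := by
    ext h
    simp
  have hfin := key n le_rfl
  rw [hun] at hfin
  exact hZ K σ W hW n M h0 a Ω x x0 e N hT.nz hT.nz0
    (fun j i => hD K σ W hW n a g g0 Ω x x0 hT hnf j i (e j)) hN2 hfin c hc hs

theorem indq (hE : EASYS) (hH : HARDS) (hD : NDGP) (hZ : NZPP) (hR : RDX) : INDQ :=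
  hR (indp hE hH hD hZ)

/-- helper42's statement from INDQ and NFL2 -/
theorem s_indn (hQ : INDQ) (hF : NFL2) : S_INDN := by
  intro D0 m
  obtain ⟨h0, h1, hQ⟩ := hQ D0 m
  refine ⟨h0, h1, ?_⟩
  intro K _ _ σ _ _ W hW hN n hcard hm a g g0 hg hg0 hd hd0 hp hp0 M e c he hc hs Ω _ _ _
    X Ψ X0 Ψ0 hon hz hz0 hind
  exact hQ K σ W hW n hcard hm a g g0 (fun j => hF K σ W hW hN a (g j)
    (by
      haveI : Nontrivial σ := by
        rw [← Fintype.one_lt_card_iff_nontrivial]
        have := j.2
        omega
      exact exists_ne a) (hg j) (hp j))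
    hg0.ne_zero hd M e c he hc hs Ω X Ψ X0 Ψ0 hon hz hz0 hind

/-- helper42's form for project TG -/
theorem s_indf (hQ : INDQ) : Pool.Agent.Helper42.TN.S_INDF := by
  intro D0 m
  obtain ⟨h0, h1, hQ⟩ := hQ D0 m
  refine ⟨h0, h1, ?_⟩
  intro K _ _ σ _ _ W hW n hcard hm a g g0 hnf hg hg0 hd hd0 hp hp0 M e c he hc hs Ω _ _ _
    X Ψ X0 Ψ0 hon hz hz0 hind
  exact hQ K σ W hW n hcard hm a g g0 (fun j => fun Ω₁ Ω₂ _ _ _ _ _ _ _ X Ψ h1 h2 h3 α h4 =>
    hnf j a Ω₁ Ω₂ X Ψ h1 h2 h3 α h4) hg0.ne_zero hd M e c he hc hs Ω X Ψ X0 Ψ0 hon hz hz0 hind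

end Pool.Agent.Helper92.TN
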