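import Mathlib

/-!
# Project TN (MP_a41896_nt), IND, part D: the degree calculus

`k ⊆ M` fields of characteristic `0`, `t ∈ M` transcendental over `k`; for `f ∈ M` algebraic over `k(t)` the number
`dg k t f = [k(t, f) : k(f)] / [k(t, f) : k(t)]` (`0` if `f` is algebraic over `k`) is the degree of `f`, normalised by `dg t = 1`:
`[F : k(f)] = dg k t f * [F : k(t)]` for every finite extension `F` of `k(t)` which contains `f`.
Main theorems: DEGB (degree bound by a relation) and REM (linear independence over `k₀(S)` passes to `k₀(S, v)`).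
-/

set_option autoImplicit false

open MvPolynomial

namespace Pool.Agent.Helper92.TN

noncomputable section

/-! ## Definitions -/

/-- the normalised degree of `f` (see above); it is `0` if `f` is algebraic over `k` -/
def dg (k : Type) [Field k] {M : Type} [Field M] [Algebra k M] (t f : M) : ℝ :=
  ((minpoly (IntermediateField.adjoin k {f}) t).natDegree : ℝ) /
    ((minpoly (IntermediateField.adjoin k {t}) f).natDegree : ℝ)

/-- the monomials `∏ x_i ^ l_i`, `l_i ≤ N i`, are linearly independent over the set (field) `R` -/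
def LIm {Ω : Type} [Field Ω] (R : Set Ω) {ι : Type} [Fintype ι] [DecidableEq ι] (x : ι → Ω)
    (N : ι → ℕ) : Prop :=
  ∀ c : (ι → ℕ) → Ω, (∀ l, c l ∈ R) →
    ∑ l ∈ Fintype.piFinset (fun i => Finset.range (N i + 1)), c l * ∏ i, x i ^ l i = 0 →
    ∀ l ∈ Fintype.piFinset (fun i => Finset.range (N i + 1)), c l = 0

/-! ## Integrality -/

/-- **INTP**: products of roots. No hypotheses.
PROOF. (1) LEMMA: if `q ∈ A[X]` has coefficients integral over `R` and `q(ρ) = 0`, then `q = (X - ρ) q'` and all coefficients of `q'` are integral over `R`. Let `q = ∑_(i ≤ n) a_i X^i`; the coefficients of `q'` are `b_i = ∑_(j > i) a_j ρ^(j-i-1)` (`0 ≤ i < n`). Let `R' = R[a_0, .., a_n]` (finite over `R`) and let `Λ` be the `R'`-span of `1, ρ, .., ρ^(n-1)` (`n ≥ 1`): `b_i ρ^j ∈ Λ` for `j < n`: for `j ≤ i` by the formula; for `j > i`: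
`b_i ρ^(i+1) = ∑_(l > i) a_l ρ^l = - ∑_(l ≤ i) a_l ρ^l` because `q(ρ) = 0`, times `ρ^(j-i-1)`. So `b_i Λ ⊆ Λ`, `1 ∈ Λ`, `Λ` finitely generated: `b_i` is integral over `R'`, so over `R` (`isIntegral_of_smul_mem_submodule` or the determinant trick, `isIntegral_trans`). (Work with the integral closure of `R` in `A` instead of `R'` if convenient: use that every coefficient is integral and a finite number of them.) (2) Apply (1) to the elements `θ ∉ S` one after the other (`Finset.induction`): the polynomial `lc * ∏_(θ ∈ S) (X - ρ θ)` has integral coefficients; its constant coefficient is `± lc ∏_(θ ∈ S) ρ θ`. -/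
def INTP : Prop :=
  ∀ (R A : Type) [CommRing R] [Field A] [Algebra R A] (Θ : Type) [Fintype Θ] (lc : A) (ρ : Θ → A),
    (∀ l, IsIntegral R ((Polynomial.C lc * ∏ θ, (Polynomial.X - Polynomial.C (ρ θ))).coeff l)) →
    ∀ S : Finset Θ, IsIntegral R (lc * ∏ θ ∈ S, ρ θ)

/-- **NPI**: the product of the conjugates of `P(x)`. No hypotheses.
PROOF. Expand: `P = ∑_(m ∈ supp) p_m X^m`, `∏_θ P(ρ_θ) = ∑_(μ : Θ → supp) ∏_θ p_(μ θ) ∏_i ∏_θ (ρ i θ)^(μ θ i)` (`Finset.prod_univ_sum`). For fixed `μ` and `i`: `∏_θ (ρ i θ)^(μ θ i) = ∏_(r < n i) ∏_(θ ∈ S_r) ρ i θ`, `S_r = {θ, r < μ θ i}` (`μ θ i ≤ n i`), so `lc i ^ n i * ∏_θ (ρ i θ)^(μ θ i) = ∏_(r < n i) (lc i * ∏_(θ ∈ S_r) ρ i θ)` is integral. Sums and products of integral elements are integral; the images of elements of `R` are integral. -/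
def NPI : Prop :=
  ∀ (R A : Type) [CommRing R] [Field A] [Algebra R A] (ι Θ : Type) [Fintype ι] [Fintype Θ]
    (lc : ι → A) (ρ : ι → Θ → A) (n : ι → ℕ) (P : MvPolynomial ι R),
    (∀ i (S : Finset Θ), IsIntegral R (lc i * ∏ θ ∈ S, ρ i θ)) → (∀ i, degreeOf i P ≤ n i) →
    IsIntegral R ((∏ i, lc i ^ n i) * ∏ θ, aeval (fun i => ρ i θ) P)

/-- **SYMF**: the characteristic polynomial of `x` over `k(v)`. No hypotheses.
PROOF. `v` is transcendental, so `k[X] ≅ k[v]`, `k(v)` is its fraction field. `m := minpoly k(v) x`, `E` algebraically closed; `∏_θ (Y - θ x) = (m.map)^r`, `r = [F : k(v, x)]` (characteristic `0`, separable; compare `Algebra.norm_eq_prod_embeddings`, `prod_embeddings_eq_finrank_pow`: every root of `m` in `E` is `θ x` for exactly `r` embeddings, `m` has simple roots).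
Let `m̃ ∈ k[X][Y]` be a primitive multiple of `m` (`m̃(v, Y) = c m(Y)`, `c ≠ 0`), `μ := m̃^r`: natDegree `r deg m = [F : k(v)]`, `μ(v, Y) = lc(v) ∏_θ (Y - θ x)` where `lc` = the leading coefficient of `μ`. DEGREE in `X`: (a) `x` algebraic over `k`: `m` has coefficients in `k` (the minimal polynomial of `x` over `k` stays irreducible over `k(v)`: its coefficients are elements of `k(v)` algebraic over `k`, so constants), take `m̃ = minpoly k x`: all coefficients have degree `0`.
(b) `x` transcendental over `k`: `s := [k(x, v) : k(x)]`, `q(X) := minpoly k(x) v` of degree `s`; clear denominators: `q̃ ∈ k[X][Y]`, `q̃ ≠ 0`, all coefficients (polynomials in `X`) of degree `≤ s`, `q̃(v, x) = 0`. So `m ∣ q̃(v, Y)` in `k(v)[Y]`, and `m̃ ∣ q̃` in `k[X][Y]` (`m̃` primitive, Gauss: `Polynomial.IsPrimitive.dvd_of_fraction_map_dvd_fraction_map`-type lemma). The degree in `X` (maximum of the natDegrees of the coefficients; `Polynomial.Bivariate.swap`, or work in `k[X, Y]` with `degreeOf`) is additive, so the one of `m̃`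 is `≤ s`,
the one of `μ` is `≤ r s = [F : k(x, v)] [k(x, v) : k(x)] = [F : k(x)]`. -/
def SYMF : Prop :=
  ∀ (k F : Type) [Field k] [CharZero k] [Field F] [Algebra k F] (v : F), Transcendental k v →
    FiniteDimensional (IntermediateField.adjoin k {v}) F → ∀ (x : F) (E : Type) [Field E]
    [IsAlgClosed E] [Algebra (IntermediateField.adjoin k {v}) E]
    (ev : Polynomial k →+* E),
    (∀ p : Polynomial k, ev p = algebraMap (IntermediateField.adjoin k {v}) E
      (Polynomial.aeval (⟨v, IntermediateField.mem_adjoin_simple_self k v⟩ :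
        IntermediateField.adjoin k {v}) p)) →
    ∃ μ : Polynomial (Polynomial k), μ ≠ 0 ∧
      (∀ l, (μ.coeff l).natDegree ≤
        Module.finrank (IntermediateField.adjoin k {x}) F) ∧
      μ.map ev = Polynomial.C (ev μ.leadingCoeff) *
        ∏ᶠ θ : F →ₐ[IntermediateField.adjoin k {v}] E, (Polynomial.X - Polynomial.C (θ x))

/-- **NDEG**: the norm of `P(x)` to `k(v)`, multiplied by the leading coefficients, is a polynomial in `v` of bounded degree. Hypotheses allowed: INTP, NPI, SYMF.
PROOF. `E := AlgebraicClosure F` with the structure of an algebra over `k(v)` through `F`; `Θ` = the embeddings `F →ₐ[k(v)] E`, finite; `norm f = ∏_θ θ f` in `E` (`Algebra.norm_eq_prod_embeddings`; characteristic `0`). SYMF for every `x i`: `μ_i`, `lc i := μ_i.leadingCoeff ≠ 0`, `D_i := [F : k(x i)]` bounds the degrees of the coefficients.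
FIRST PART of the conclusion. Put `R := k[X]` acting on `E` by `X ↦ v`. INTP (the coefficients of `lc_i(v) ∏_θ (Y - θ x_i)` are the values at `v` of the coefficients of `μ_i`) and NPI (`ρ i θ = θ (x i)`, `P` over `R`) give: `g := (∏ lc_i(v)^(n i)) * ∏_θ P(θ x)` is integral over `k[v]`; it is `norm (P(x)) * ∏ lc_i(v)^(n i) ∈ k(v)` (for `P` over `k`, and in the second part for polynomials in `v` and `x`: coefficients in `R`). `k[v]` is integrally closed with fraction field `k(v)` (isomorphic to `k[X]`), so `g = A(v)`, `A ∈ k[X]`.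
DEGREE. The same with `R := k[X]` acting by `X ↦ u := 1/v`: the polynomial `u^(D_i) μ_i(v, Y)` has coefficients in `k[u]` (`coeff.reverse`/`reflect D_i`: degree `≤ D_i`), so `(∏ (v^(-D_i) lc_i(v))^(n i)) * norm (P(x)) = v^(-D) A(v)`, `D = ∑ n_i D_i`, is integral over `k[u]` and in `k(u) = k(v)`, so it is a polynomial in `u`: `A(v) = v^D B(1/v)`, which forces `deg A ≤ D` (`v^r A(v) = v^(D + r) B(1/v)` with `r ≥ deg B`.., compare degrees; or: if `deg A > D`, then `X^(-D) A(X)` has a pole at infinity).
SECOND PART: `G = Q(x)` with `Q` a polynomial in the `x i` with coefficients in `k[v]` (`G ∈ adjoin k (insert v (range x))`, so `G = aeval` of a polynomial in `v` and `x`), `M i := degreeOf i Q`. -/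
def NDEG : Prop :=
  ∀ (k F : Type) [Field k] [CharZero k] [Field F] [Algebra k F] (v : F), Transcendental k v →
    FiniteDimensional (IntermediateField.adjoin k {v}) F → ∀ (ι : Type) [Fintype ι] (x : ι → F),
    ∃ lc : ι → Polynomial k, (∀ i, lc i ≠ 0) ∧
      (∀ (n : ι → ℕ) (P : MvPolynomial ι k), (∀ i, degreeOf i P ≤ n i) → ∃ A : Polynomial k,
        A.natDegree ≤ ∑ i, n i * Module.finrank (IntermediateField.adjoin k {x i}) F ∧
        (Algebra.norm (IntermediateField.adjoin k {v}) (aeval x P) : F) *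
          ∏ i, Polynomial.aeval v (lc i) ^ n i = Polynomial.aeval v A) ∧
      ∀ G ∈ Algebra.adjoin k (insert v (Set.range x)), ∃ (n : ι → ℕ) (A : Polynomial k),
        (Algebra.norm (IntermediateField.adjoin k {v}) G : F) *
          ∏ i, Polynomial.aeval v (lc i) ^ n i = Polynomial.aeval v A

/-- **REMF**: zeros over `v = ω`. Hypothesis allowed: NDEG.
PROOF. `lc` of NDEG; `Z` := the finite set of the roots of all `lc i` in `k`. Let `ω ∉ Z`, `f = P(x) = (v - ω) G ≠ 0`, `d = [F : k(v)]`. `norm f = (v - ω)^d norm G`. NDEG: `A(v) = norm f ∏ lc_i(v)^(n i)`, `A'(v) = norm G ∏ lc_i(v)^(m i)`; so `A(v) ∏ lc_i(v)^(m i) = (v - ω)^d A'(v) ∏ lc_i(v)^(n i)`, an identity of polynomials because `v` is transcendental. `X - ω` is prime and divides no `lc i`, so `(X - ω)^d ∣ A`, and `A ≠ 0` (`norm f ≠ 0`): `d ≤ deg A ≤ ∑ n_i [F : k(x i)]`. -/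
def REMF : Prop :=
  ∀ (k F : Type) [Field k] [CharZero k] [Field F] [Algebra k F] (v : F), Transcendental k v →
    FiniteDimensional (IntermediateField.adjoin k {v}) F → ∀ (ι : Type) [Fintype ι] (x : ι → F),
    ∃ Z : Finset k, ∀ ω ∉ Z, ∀ (n : ι → ℕ) (P : MvPolynomial ι k), (∀ i, degreeOf i P ≤ n i) →
      aeval x P ≠ 0 →
      (∃ G ∈ Algebra.adjoin k (insert v (Set.range x)), aeval x P = (v - algebraMap k F ω) * G) →
      Module.finrank (IntermediateField.adjoin k {v}) F ≤
        ∑ i, n i * Module.finrank (IntermediateField.adjoin k {x i}) F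

/-! ## The normalised degree -/

/-- **DGR**: the normalised degree and the field degrees. No hypotheses.
PROOF. (1) If `f` is algebraic over `k` then `k(f)` is algebraic over `k`, `t` is not algebraic over `k(f)`: both sides are `0` (`minpoly = 0`, `finrank = 0` because `F` is not finite over `k(f)`). Otherwise `F` is algebraic over `k(f)` (`t` is algebraic over `k(f)`: exchange, `f` is algebraic over `k(t)` and transcendental over `k`), and finite: `F` is finite over `k(t)`, so over `k(t, f)`, which is finite over `k(f)`. With `G = k(t, f)`: `[F : k(f)] = [F : G] [G : k(f)]`, `[F : k(t)] = [F : G] [G : k(t)]`, `[G : k(f)] = ` degree of `minpoly k(f) t`,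
`[G : k(t)] = ` degree of `minpoly k(t) f` (towers; `IntermediateField.adjoin.finrank`, `relfinrank` or `IntermediateField.extendScalars`). (2) the degree of a minimal polynomial does not change under compatible isomorphisms: `φ` maps `k(f)` onto `k'(φ f)`; a polynomial over `k(f)` with the root `t` is mapped to one over `k'(φ f)` with the root `φ t`, and conversely (inverse image: `φ` restricted to `k(f)` is an isomorphism onto `k'(φ f)`); if `t` is not algebraic over `k(f)`, then `φ t` is not algebraic over `k'(φ f)`, both degrees are `0`. -/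
def DGR : Prop :=
  (∀ (k F : Type) [Field k] [CharZero k] [Field F] [Algebra k F] (t f : F), Transcendental k t →
    FiniteDimensional (IntermediateField.adjoin k {t}) F →
    (Module.finrank (IntermediateField.adjoin k {f}) F : ℝ) =
      dg k t f * Module.finrank (IntermediateField.adjoin k {t}) F) ∧
  ∀ (k M k' M' : Type) [Field k] [Field M] [Algebra k M] [Field k'] [Field M'] [Algebra k' M']
    (ψ : k ≃+* k') (φ : M →+* M'), (∀ c, φ (algebraMap k M c) = algebraMap k' M' (ψ c)) →
    ∀ t f : M, dg k' (φ t) (φ f) = dg k t f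

/-- **DGF**: first properties. No hypotheses (DGR allowed).
PROOF. (1) quotient of natural numbers. (2) `t` is transcendental over `k(f)` if `f` is algebraic over `k`: `minpoly = 0`. (3) `minpoly k(t) t` has degree `1` on both sides. (4) both degrees are positive: `t` is algebraic over `k(f)` by exchange, `f` is algebraic over `k(t)`. -/
def DGF : Prop :=
  ∀ (k M : Type) [Field k] [Field M] [Algebra k M] (t f : M), Transcendental k t →
    0 ≤ dg k t f ∧ (IsAlgebraic k f → dg k t f = 0) ∧ dg k t t = 1 ∧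
      (IsAlgebraic (IntermediateField.adjoin k {t}) f → Transcendental k f → 0 < dg k t f)

/-- **DEGB**: degree bound by a relation. Hypotheses allowed: REMF, DGR, DGF.
PROOF. If `v` is algebraic over `k`: DGF. Otherwise let `F` be the intermediate field generated over `k` by `t, v` and the `x i`: finite over `k(t)` (finitely many algebraic elements), so finite over `k(v)` (`t` is algebraic over `k(v)`). REMF in `F`: `Z`. For `ω ∈ k` let `P_ω := R(X_none = ω) ∈ k[X_i]`, degrees `≤ N i`. `f_ω := P_ω(x) = R(x; ω) - R(x; v) = (v - ω) G`, `G` a polynomial in `v` and the `x i` over `k`. `R(x; T)` is a non-zero polynomial in `T` (hypothesis), so `f_ω ≠ 0` for all but finitely many `ω`; `k` is infinite: choose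
`ω ∉ Z` with `f_ω ≠ 0`. REMF: `[F : k(v)] ≤ ∑ N i [F : k(x i)]`; DGR (1) (in `F`) and (2) (for `F → M`): divide by `[F : k(t)] > 0`. -/
def DEGB : Prop :=
  ∀ (k M : Type) [Field k] [CharZero k] [Field M] [Algebra k M] (t : M), Transcendental k t →
    (∀ z : M, IsAlgebraic (IntermediateField.adjoin k {t}) z) →
    ∀ (ι : Type) [Fintype ι] (x : ι → M) (v : M) (N : ι → ℕ) (R : MvPolynomial (Option ι) k),
    (∀ i, degreeOf (some i) R ≤ N i) → aeval (fun o : Option ι => o.elim v x) R = 0 →
    (∃ c : M, aeval (fun o : Option ι => o.elim c x) R ≠ 0) →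
    dg k t v ≤ ∑ i, N i * dg k t (x i)

/-- **REM**: linear independence over `K(S)` passes to `K(S, v)`. Hypotheses allowed: REMF, DGR, DGF.
PROOF. Let `c l ∈ K(S ∪ {v})`, not all `0` on the box, `∑ c_l x^l = 0`. `R := K(S) ⊆ k`, `K(S ∪ {v}) = R(v)`: `c_l = a_l(v) / b(v)` with `a_l, b ∈ R[T]`, `b(v) ≠ 0` (`v` is transcendental over `k ⊇ R`; common denominator, finitely many `l`). So `∑ a_l(v) x^l = 0`, not all `a_l = 0`. `A(T) := ∑ a_l(T) x^l ∈ Ω[T]`. For `ω ∈ K` outside a finite set the `a_l(ω) ∈ R` are not all `0`, so `f_ω := A(ω) ≠ 0` by `LIm (K(S)) x N`. `f_ω = P_ω(x)`, `P_ω = ∑ a_l(ω) X^l ∈ k[X]`,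
degrees `≤ N i`; `f_ω = A(ω) - A(v) = (v - ω) G`, `G` a polynomial in `v` and `x` over `k`. As in DEGB (field `F` = `k(t, v, x)`, REMF, DGR): `dg k t v ≤ ∑ N i dg k t (x i)`, a contradiction. -/
def REM : Prop :=
  ∀ (K Ω : Type) [Field K] [CharZero K] [Field Ω] [Algebra K Ω] (k : IntermediateField K Ω)
    (S : Set Ω) (t v : Ω), S ⊆ (k : Set Ω) → Transcendental k t → Transcendental k v →
    (∀ z : Ω, IsAlgebraic (IntermediateField.adjoin k {t}) z) →
    ∀ (ι : Type) [Fintype ι] [DecidableEq ι] (x : ι → Ω) (N : ι → ℕ),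
    ∑ i, (N i : ℝ) * dg k t (x i) < dg k t v →
    LIm (IntermediateField.adjoin K S : Set Ω) x N →
    LIm (IntermediateField.adjoin K (insert v S) : Set Ω) x N

end

end Pool.Agent.Helper92.TN
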