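import Pool.Agent.Helper92.TN.GoalsH
import Pool.Agent.Helper42.TN.Defs

/-!
# Project TN (MP_a41896_nt), IND, part W: the tower

Points `x_j` (`j < n`, `|σ| = n + 1`) on `g_j = 0`, `x0` on `g_0 = 0`, generic and independent; `w_(ji) = 2^(e j) x_(ji) - x0_i`, `v_(ji) = x(w_(ji))`.
`TW J`: the monomials in the `X_(ji)`, `i ≠ a`, of degrees `≤ N j` are linearly independent over `K(v_h : h ∈ J)`, and the `v_h`, `h ∈ J`, are
algebraically independent over `K`.  EASYS: `(j, i)`, `i ≠ a`, may be added to `J`; HARDS: `(j, a)` may be added at last (by HLEM).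
-/

set_option autoImplicit false

open MvPolynomial

namespace Pool.Agent.Helper92.TN

open WeierstrassCurve
open Pool.Agent.Helper29.BL Pool.Agent.Helper92.Ru Pool.Agent.Helper42.SG
open Pool.Agent.Helper60.T3 (WL IP zd)
open Pool.Agent.Helper42.TN (SupN)
open Pool.Agent.Helper68.VN (Ix P0B mapS OnB)

noncomputable section

/-! ## Definitions -/

section defs

variable {K : Type} [Field K] {σ : Type} {Ω : Type} [Field Ω] [Algebra K Ω]

/-- the data of the tower -/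
structure TD [Fintype σ] (W : σ → Affine K) {n : ℕ} (a : σ) (g : Fin n → MvPolynomial σ K)
    (g0 : MvPolynomial σ K) (x : Fin n → ∀ i, (WL Ω (W i)).Point)
    (x0 : ∀ i, (WL Ω (W i)).Point) : Prop where
  card : Fintype.card σ = n + 1
  nz : ∀ j i, x j i ≠ 0
  nz0 : ∀ i, x0 i ≠ 0
  on : ∀ j, aeval (fun i => xc (x j i)) (g j) = 0
  on0 : aeval (fun i => xc (x0 i)) g0 = 0
  gne : ∀ j, g j ≠ 0
  g0ne : g0 ≠ 0
  ind : AlgebraicIndependent K (Sum.elim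
    (fun h : Fin n × {i : σ // i ≠ a} => xc (x h.1 h.2)) (fun i : {i : σ // i ≠ a} => xc (x0 i)))
  all : ∀ z : Ω, z ∈ acl K (Set.range (fun h : Fin n × σ => xc (x h.1 h.2)) ∪
    Set.range (fun i => xc (x0 i)))

/-- `v_(ji) = x(2^(e j) x_(ji) - x0_i)` -/
def wv [DecidableEq Ω] (W : σ → Affine K) {n : ℕ} (x : Fin n → ∀ i, (WL Ω (W i)).Point)
    (x0 : ∀ i, (WL Ω (W i)).Point) (e : Fin n → ℕ) (h : Fin n × σ) : Ω :=
  xc ((2 ^ e h.1) • x h.1 h.2 - x0 h.2)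

/-- the claim of the tower for the set `J` of pairs -/
def TW [DecidableEq Ω] [Fintype σ] [DecidableEq σ] (W : σ → Affine K) {n : ℕ} (a : σ)
    (x : Fin n → ∀ i, (WL Ω (W i)).Point) (x0 : ∀ i, (WL Ω (W i)).Point) (e N : Fin n → ℕ)
    (J : Finset (Fin n × σ)) : Prop :=
  LIm (IntermediateField.adjoin K (wv W x x0 e '' (J : Set (Fin n × σ))) : Set Ω)
    (fun h : Fin n × {i : σ // i ≠ a} => xc (x h.1 h.2)) (fun h => N h.1) ∧
  AlgebraicIndependent K (fun h : {h : Fin n × σ // h ∈ J} => wv W x x0 e h)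

end defs

/-! ## The steps -/

/-- **EASYS**. Hypotheses allowed: REM, DLOW, DGF, ACLA, ACLB, ACLP.
PROOF. `k := acl K ({X0_b} ∪ {X_(j'b) : j' ≠ j} ∪ {X_(jb) : b ≠ a, b ≠ i})`, algebraically closed, `t := X_(ji)`. (1) `t ∉ k`: `k = acl K` of the `X0_b, X_(j'b)` (`b ≠ a`, `j' ≠ j`), `X_(jb)` (`b ≠ a, i`) because `X0_a ∈ acl K (X0_b : b ≠ a)` (`g0 ≠ 0`, the `X0_b`, `b ≠ a`, are independent) and `X_(j'a) ∈ acl K (X_(j'b) : b ≠ a)` (`g_(j') ≠ 0`); `ind`, ACLB (1). (2) every `z` is algebraic over `k(t)`: `all`, all coordinates are in `acl K (k ∪ {t})` (`X_(ja)` by `g_j`). (3) `wv (j', i') ∈ k` for `(j', i') ∈ J`: the points `x_(j'i')` and `x0_(i')` have coordinates in `k` (ACLP).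
(4) `v := wv (j, i)`: DLOW with `P = x_(ji)`, `c = x0_i`, `dg k t t = 1`: `4^(e j) ≤ 2 dg v`, so `v` is transcendental over `k` (DGF, ACLA (7)). (5) `∑ N dg X_h = N j` (`dg X_h = 0` for `X_h ∈ k`, DGF) and `2 N j ≤ h0 N j < 4^(e j) ≤ 2 dg v`. REM with `S := wv '' J`. (6) `v` is transcendental over `k ⊇ K(wv '' J)`: the independence of the family on `insert (j, i) J` (ACLB (1) or (3), exchange). -/
def EASYS : Prop :=
  ∀ (K : Type) [Field K] [CharZero K] (σ : Type) [Fintype σ] [DecidableEq σ]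
    (W : σ → Affine K), (∀ i, (W i).IsElliptic) → ∀ (n : ℕ) (a : σ)
    (g : Fin n → MvPolynomial σ K) (g0 : MvPolynomial σ K) (Ω : Type) [Field Ω]
    [IsAlgClosed Ω] [DecidableEq Ω] [Algebra K Ω] (x : Fin n → ∀ i, (WL Ω (W i)).Point)
    (x0 : ∀ i, (WL Ω (W i)).Point) (e N : Fin n → ℕ) (h0 : ℕ), TD W a g g0 x x0 → 2 ≤ h0 →
    (∀ j, N j * h0 < 4 ^ e j) → ∀ (j : Fin n) (i : σ) (J : Finset (Fin n × σ)), i ≠ a →
    (∀ h ∈ J, h.1 = j → h.2 ≠ a ∧ h.2 ≠ i) → TW W a x x0 e N J →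
    TW W a x x0 e N (insert (j, i) J)

/-- **HARDS**. Hypotheses allowed: HLEM, REM, DLOW, DGF, ACLA, ACLB, ACLP.
PROOF. `C` of HLEM, `h0 := 2 C n² + 1 ≥ C` (`n ≥ 1`). `V := {v_h : h.1 < j}`. (1) some `X0_i ∉ acl K V`: otherwise all `x0_i`, so (`2^e x_(j'i) = w_(j'i) + x0_i`, ACLP) all `X_(j'i)`, `j' < j`, are in `acl K V`; the `(j + 1) n` elements `X_(j'i)`, `X0_i` (`j' < j`, `i ≠ a`) are independent (`ind`), so `(j+1) n ≤ |V| ≤ j (n+1)` (ACLB (2)), `n ≤ j`, contradiction. (2) choose `B' ⊆ σ` maximal such that `(X0_b)_(b ∈ B')` is independent over `acl K V`: all `X0_i ∈ acl K (V ∪ X0(B'))`, `B' ≠ ∅`. `b0 ∈ B'`, `t := X0_(b0)`, `B := B' - b0`.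
`S := V ∪ X0(B) ∪ {X_(j''i) : j'' > j}`, `SL := {X0_i} ∪ {X_(j'i) : j' ≠ j}`, `L := acl K SL ⊇ S`, `t ∈ L`, `k := acl K (S ∪ {v_(jc) : c ≠ a})`. (3) the `X_(jc)`, `c ≠ a`, are independent over `L` (`ind`; `L = acl K` of the `X0_i, X_(j'i)` with `i ≠ a`, as in EASYS (1); ACLB (3)), and everything is algebraic over `L(X_(jc) : c ≠ a)`.
(4) `t ∉ k`: let `M0 := acl K ({X0_i} ∪ {X_(j'i) : j' < j}) ∋ t`; the elements `X_(j''i)` (`j'' > j`, `i ≠ a`), `v_(jc)` (`c ≠ a`) are independent over `M0` (`v_(jc)` and `X_(jc)` are algebraic over each other over `M0 ∋ x0_c`, ACLP). `t ∉ acl K (V ∪ X0(B))`. If `t ∈ k`, take a minimal set `U` of these elements with `t ∈ acl K (V ∪ X0(B) ∪ U)`; `u ∈ U`; exchange: `u ∈ acl K (V ∪ X0(B) ∪ {t} ∪ (U - u)) ⊆ acl K (M0 ∪ (U - u))`, contradiction. (5) every `z` is algebraic over `k(t)`: `X0_i` by (2), `X_(j'i)` (`j' < j`) from `w_(j'i)`, `x0_i`;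
`X_(j''i) ∈ k`; `X_(jc)` (`c ≠ a`) from `w_(jc) ∈ k` and `x0_c`; `X_(ja)` by `g_j`; `all`. (6) HLEM (`g := g j`, `x := x j`): `dg X0_c ≤ C dg v`, `v := v_(ja)`, `c ≠ a`. (7) some `X0_c ∉ k` with `c ≠ a` (otherwise all `X0_i ∈ k` by `g0`, and `t ∈ k`), so `0 < dg X0_c`, `0 < dg v`, `v` is transcendental over `k`. (8) `dg X_h`: for `h = (j', i)`, `i ≠ a`, `j' ≤ j`: DLOW with `P = x_(j'i)`, constant `w_(j'i)` (coordinates in `k`): `2^e x_(j'i) - w_(j'i) = x0_i`: `4^(e j') dg X_h ≤ 2 dg X0_i ≤ 2 C dg v`; for `j' > j`: `dg X_h = 0`.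
So `h0 ∑ N dg X_h ≤ ∑ 4^(e j') dg X_h ≤ n² 2 C dg v < h0 dg v`. (9) REM with `S := wv '' J ⊆ k`, and as in EASYS (6). -/
def HARDS : Prop :=
  ∀ D0 n : ℕ, ∃ h0 : ℕ, 2 ≤ h0 ∧ ∀ (K : Type) [Field K] [CharZero K] (σ : Type) [Fintype σ]
    [DecidableEq σ] (W : σ → Affine K), (∀ i, (W i).IsElliptic) → ∀ (a : σ)
    (g : Fin n → MvPolynomial σ K) (g0 : MvPolynomial σ K),
    (∀ j i, degreeOf i (g j) ≤ D0) → (∀ j, NotFlat W a (g j)) →
    ∀ (Ω : Type) [Field Ω] [IsAlgClosed Ω] [DecidableEq Ω] [Algebra K Ω]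
      (x : Fin n → ∀ i, (WL Ω (W i)).Point) (x0 : ∀ i, (WL Ω (W i)).Point) (e N : Fin n → ℕ),
      TD W a g g0 x x0 → (∀ j, h0 ≤ 4 ^ e j) → (∀ j, N j * h0 < 4 ^ e j) →
      ∀ (j : Fin n) (J : Finset (Fin n × σ)), (∀ h, h ∈ J ↔ h.1 < j ∨ h.1 = j ∧ h.2 ≠ a) →
      TW W a x x0 e N J → TW W a x x0 e N (insert (j, a) J)

/-- **NDGP**: the points `2^e x ± x0` are not `0`. Hypotheses allowed: ACLA, ACLB, ACLP.
PROOF. Claim: `X_(ji) ∉ A := acl K {X0_b}`. `A = acl K (X0_b : b ≠ a)` (`g0 ≠ 0`). For `i ≠ a`: `ind`, ACLB. For `i = a`: let `c ≠ a` (`|σ| = n + 1 ≥ 2` because `j : Fin n`). NotFlat for `g j` with `Ω₁ := acl K ∅`, `Ω₂ := Ω`, `α := e_c` (independence over `acl K ∅`: ACLB (4)): `ψ_c ∂_c g_j(X_j) ≠ 0`; so `g_j(X_(jb) : b ≠ c; T)` has `X_(jc)` as a simple root, in particular it is not the zero polynomial, and `X_(jc) ∈ acl K (X_(jb) : b ≠ c)`. If `X_(ja) ∈ A` then `X_(jc) ∈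 acl K ({X0_b : b ≠ a} ∪ {X_(jb) : b ≠ a, c})`, a contradiction to `ind`.
If `2^e x_(ji) = ± x0_i` then `x_(ji)` has coordinates in `A` (ACLP (2)), contradiction. -/
def NDGP : Prop :=
  ∀ (K : Type) [Field K] [CharZero K] (σ : Type) [Fintype σ] [DecidableEq σ]
    (W : σ → Affine K), (∀ i, (W i).IsElliptic) → ∀ (n : ℕ) (a : σ)
    (g : Fin n → MvPolynomial σ K) (g0 : MvPolynomial σ K) (Ω : Type) [Field Ω]
    [IsAlgClosed Ω] [DecidableEq Ω] [Algebra K Ω] (x : Fin n → ∀ i, (WL Ω (W i)).Point)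
    (x0 : ∀ i, (WL Ω (W i)).Point), TD W a g g0 x x0 → (∀ j, NotFlat W a (g j)) →
    ∀ (j : Fin n) (i : σ) (e : ℕ), (2 ^ e) • x j i + x0 i ≠ 0 ∧ (2 ^ e) • x j i - x0 i ≠ 0

/-- **NZPP**: non-vanishing from the tower. Landed: ELAW.
PROOF. ELAW (`P = x_(ji)`, `Q = x0_i`; `mapS Ω W i = WL Ω (W i)`): with `(L1, L2) = law .. false ..`: `L1_(ji) ≠ 0`, `L2_(ji) = v_(ji) L1_(ji)`. So `P0B = (∏_(j,i) L1_(ji)^M) * ∑_α c(α) ∏_(j,i) X_(ji)^(l_(ji)) v_(ji)^(m_(ji))` (`δ = 1`: the exponents of `X0` are `0`). If the sum is `0`: collect the terms with the same `l`: for `l : Fin n × {i // i ≠ a} → ℕ`, `l ≤ N`, `C_l := ∑_(α with these l) c(α) ∏ v^m ∈ K(v_h : all h)`, `∑_l C_l ∏ X^l = 0` (`SupN`: `l_(ja) = 0`, `l_(ji) h0 < 4^(e j)`, so `l_(ji) ≤ N j` by `hN`).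
`TW univ` (LIm): all `C_l = 0`; for fixed `l` the `m` are independent: `C_l` is a polynomial in the algebraically independent `v_h` with the coefficients `c(α)`, so all `c(α) = 0`. -/
def NZPP : Prop :=
  ∀ (K : Type) [Field K] [CharZero K] (σ : Type) [Fintype σ] [DecidableEq σ]
    (W : σ → Affine K), (∀ i, (W i).IsElliptic) → ∀ (n M h0 : ℕ) (a : σ) (Ω : Type) [Field Ω]
    [IsAlgClosed Ω] [DecidableEq Ω] [Algebra K Ω] (x : Fin n → ∀ i, (WL Ω (W i)).Point)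
    (x0 : ∀ i, (WL Ω (W i)).Point) (e N : Fin n → ℕ), (∀ j i, x j i ≠ 0) →
    (∀ i, x0 i ≠ 0) →
    (∀ j i, (2 ^ e j) • x j i + x0 i ≠ 0 ∧ (2 ^ e j) • x j i - x0 i ≠ 0) →
    (∀ j l, l * h0 < 4 ^ e j → l ≤ N j) → TW W a x x0 e N Finset.univ →
    ∀ c : Ix σ n M 1 e → K, c ≠ 0 → (∀ α, c α ≠ 0 → SupN a h0 α) →
    P0B W n M 1 e c (fun j i => xc (x j i)) (fun j i => ps (x j i)) (fun i => xc (x0 i))
      (fun i => ps (x0 i)) ≠ 0

/-- **INDP**: independence for points which generate `Ω`. From EASYS, HARDS, NDGP, NZPP. -/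
def INDP : Prop :=
  ∀ D0 n : ℕ, ∃ h0 : ℕ, 1 ≤ h0 ∧ ∀ (K : Type) [Field K] [CharZero K] (σ : Type) [Fintype σ]
    [DecidableEq σ] (W : σ → Affine K), (∀ i, (W i).IsElliptic) → ∀ (a : σ)
    (g : Fin n → MvPolynomial σ K) (g0 : MvPolynomial σ K),
    (∀ j i, degreeOf i (g j) ≤ D0) → (∀ j, NotFlat W a (g j)) →
    ∀ (M : ℕ) (e : Fin n → ℕ) (c : Ix σ n M 1 e → K), (∀ j, h0 ≤ 4 ^ e j) → c ≠ 0 →
      (∀ α, c α ≠ 0 → SupN a h0 α) →
      ∀ (Ω : Type) [Field Ω] [IsAlgClosed Ω] [DecidableEq Ω] [Algebra K Ω]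
        (x : Fin n → ∀ i, (WL Ω (W i)).Point) (x0 : ∀ i, (WL Ω (W i)).Point),
        TD W a g g0 x x0 →
        P0B W n M 1 e c (fun j i => xc (x j i)) (fun j i => ps (x j i)) (fun i => xc (x0 i))
          (fun i => ps (x0 i)) ≠ 0

/-- **INDQ**: independence on hypersurfaces without flat direction (isogenous factors allowed). -/
def INDQ : Prop :=
  ∀ (D0 m : ℕ), ∃ h0 : ℕ, 1 ≤ h0 ∧
    ∀ (K : Type) [Field K] [CharZero K] (σ : Type) [Fintype σ] [DecidableEq σ]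
      (W : σ → Affine K), (∀ i, (W i).IsElliptic) →
      ∀ n : ℕ, Fintype.card σ = m → m = n + 1 → ∀ (a : σ) (g : Fin n → MvPolynomial σ K)
      (g0 : MvPolynomial σ K), (∀ j, NotFlat W a (g j)) → g0 ≠ 0 →
      (∀ j i, degreeOf i (g j) ≤ D0) →
      ∀ (M : ℕ) (e : Fin n → ℕ) (c : Ix σ n M 1 e → K), (∀ j, h0 ≤ 4 ^ e j) → c ≠ 0 →
      (∀ α, c α ≠ 0 → SupN a h0 α) →
      ∀ (Ω : Type) [Field Ω] [Algebra K Ω] [IsAlgClosed Ω] (X Ψ : Fin n → σ → Ω)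
        (X0 Ψ0 : σ → Ω), OnB W X Ψ X0 Ψ0 → (∀ j, aeval (X j) (g j) = 0) → aeval X0 g0 = 0 →
        AlgebraicIndependent K (Sum.elim (fun h : Fin n × {i : σ // i ≠ a} => X h.1 h.2)
          (fun i : {i : σ // i ≠ a} => X0 i)) →
        P0B W n M 1 e c X Ψ X0 Ψ0 ≠ 0

/-- **RDX**: reduction to the field generated by the points. Hypotheses allowed: ACLA, ACLP, INDP.
PROOF. `Ω' := acl K (all X_(ji), X0_i)`, an algebraically closed subfield of `Ω` (as an intermediate field; `Classical.decEq`), which contains all `X, Ψ, X0, Ψ0` (`Ψ² = B(X)`). Points of `WL Ω' (W i)` with these coordinates (`x = X`, `ψ = Ψ`; `IsElliptic`: nonsingular). `TD` for them: `gne`: NotFlat for `g j = 0` is false (take `Ω₁ = AlgebraicClosure K`, any point and `α ≠ 0`; `Ω₂` = an algebraic closure of `Ω₁(Z)`); `on, on0, ind`: the inclusion `Ω' → Ω` is injective; `all`: algebraic over the field generated, in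 `Ω'`. If `n = 0`.. nothing special. INDP gives
`P0B ≠ 0` in `Ω'`, and `P0B` over `Ω` is its image (ring homomorphism, `P0B`-map lemma in `GoalsN.lean`/`Pool.Agent.Helper44.ZH.NRH`). -/
def RDX : Prop := INDP → INDQ

end

end Pool.Agent.Helper92.TN
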